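import Mathlib
import Pool.Agent.Y522.Basic

/-!
# Maps which are close to affine maps at all small scales

The error is measured by the least stretching of the linear part. The quotient of the largest and
the least stretching grows at most like the square root of the inverse of the radius.
-/

set_option autoImplicit false

open Set Filter Topology Metric Function
open scoped Manifold ContDiff

noncomputable section

namespace Pool.Agent.U498.AA

open Pool.Agent.Y522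

variable {n : ℕ}

/-- on the ball of radius `r` around `y` the map `G` differs from the affine map `p ↦ a + L p` by at
most `ε r` times the least stretching of `L` -/
def Apx (G : E n → E n) (ε : ℝ) (y : E n) (r : ℝ) (a : E n) (L : E n →L[ℝ] E n) : Prop :=
  ∀ p, ‖p - y‖ ≤ r → ∀ v, ‖v‖ = 1 → ‖G p - (a + L p)‖ ≤ ε * (r * ‖L v‖)

theorem Apx.mono {G : E n → E n} {ε ε' r : ℝ} {y a : E n} {L : E n →L[ℝ] E n}
    (h : Apx G ε y r a L) (hε : ε ≤ ε') (hr : 0 ≤ r) : Apx G ε' y r a L := by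
  intro p hp v hv
  refine (h p hp v hv).trans ?_
  exact mul_le_mul_of_nonneg_right hε (by positivity)

theorem Apx.diff {G : E n → E n} {ε r r' : ℝ} {y a a' : E n} {L L' : E n →L[ℝ] E n} (hr : 0 < r)
    (h : Apx G ε y r a L) (h' : Apx G ε y r' a' L') (hrr : r ≤ r') (hr2 : r' ≤ 2 * r)
    (hε : 0 ≤ ε) {v w : E n} (hv : ‖v‖ = 1) (hw : ‖w‖ = 1) :
    ‖L w - L' w‖ ≤ ε * (‖L v‖ + 2 * ‖L' v‖) := by
  have key : ∀ p, ‖p - y‖ ≤ r → ‖(a + L p) - (a' + L' p)‖ ≤ ε * r * (‖L v‖ + 2 * ‖L' v‖) := by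
    intro p hp
    have h1 := h p hp v hv
    have h2 := h' p (hp.trans hrr) v hv
    have h3 : (a + L p) - (a' + L' p) = (G p - (a' + L' p)) - (G p - (a + L p)) := by abel
    have h4 : ε * (r' * ‖L' v‖) ≤ ε * (2 * r * ‖L' v‖) := by gcongr
    rw [h3]
    refine (norm_sub_le _ _).trans ?_
    nlinarith
  have hn : ‖r • w‖ = r := by rw [norm_smul, hw, mul_one, Real.norm_of_nonneg hr.le]
  have h1 := key (y + r • w) (by rw [add_sub_cancel_left, hn])
  have h2 := key (y - r • w) (by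
    have : y - r • w - y = -(r • w) := by abel
    rw [this, norm_neg, hn])
  have h3 : (2 * r) • (L w - L' w) = ((a + L (y + r • w)) - (a' + L' (y + r • w))) -
      ((a + L (y - r • w)) - (a' + L' (y - r • w))) := by
    simp only [map_add, map_sub, map_smul]
    module
  have h4 : ‖(2 * r) • (L w - L' w)‖ = 2 * r * ‖L w - L' w‖ := by
    rw [norm_smul, Real.norm_of_nonneg (by positivity)]
  have h5 := norm_sub_le ((a + L (y + r • w)) - (a' + L' (y + r • w)))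
    ((a + L (y - r • w)) - (a' + L' (y - r • w)))
  rw [← h3, h4] at h5
  have h6 : 2 * r * ‖L w - L' w‖ ≤ 2 * r * (ε * (‖L v‖ + 2 * ‖L' v‖)) := by nlinarith
  exact le_of_mul_le_mul_left h6 (by positivity)

/-- one step from a scale to the next one -/
theorem Apx.step {G : E n → E n} {r r' : ℝ} {y a a' : E n} {L L' : E n →L[ℝ] E n} (hr : 0 < r)
    (h : Apx G (1 / 20) y r a L) (h' : Apx G (1 / 20) y r' a' L') (hrr : r ≤ r')
    (hr2 : r' ≤ 2 * r) {v : E n} (hv : ‖v‖ = 1) :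
    ‖L v‖ ≤ 22 / 19 * ‖L' v‖ ∧ ‖L' v‖ ≤ 7 / 6 * ‖L v‖ := by
  have h1 := h.diff hr h' hrr hr2 (by norm_num) hv hv
  have h2 : ‖L v‖ ≤ ‖L' v‖ + ‖L v - L' v‖ := by
    have := norm_add_le (L' v) (L v - L' v)
    rwa [add_sub_cancel] at this
  have h3 : ‖L' v‖ ≤ ‖L v‖ + ‖L v - L' v‖ := by
    have := norm_sub_le (L v) (L v - L' v)
    rwa [sub_sub_cancel] at this
  constructor <;> linarith

theorem cond_bound {G : E n → E n} {δ C : ℝ}
    (hex : ∀ (y : E n) (r : ℝ), ‖y‖ ≤ δ → 0 < r → r ≤ δ → ∃ a L, Apx G (1 / 20) y r a L)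
    (hC : ∀ (y a : E n) (L : E n →L[ℝ] E n), ‖y‖ ≤ δ → Apx G (1 / 20) y δ a L →
      ∀ v w : E n, ‖v‖ = 1 → ‖w‖ = 1 → ‖L w‖ ≤ C * ‖L v‖) :
    ∀ (k : ℕ) (y : E n) (r : ℝ) (a : E n) (L : E n →L[ℝ] E n), ‖y‖ ≤ δ → 0 < r → r ≤ δ →
      δ ≤ 2 ^ k * r → Apx G (1 / 20) y r a L → ∀ v w : E n, ‖v‖ = 1 → ‖w‖ = 1 →
      ‖L w‖ ^ 2 * r ≤ (2 * C ^ 2 * δ) * ‖L v‖ ^ 2 := by
  intro k
  induction k with
  | zero =>
    intro y r a L hy hr hrδ hδr h v w hv hw
    have hrr : r = δ := le_antisymm hrδ (by linarith)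
    subst hrr
    have h1 := hC y a L hy h v w hv hw
    have h2 : ‖L w‖ ^ 2 ≤ C ^ 2 * ‖L v‖ ^ 2 := by
      have := pow_le_pow_left₀ (norm_nonneg _) h1 2
      rwa [mul_pow] at this
    have h3 : 0 ≤ C ^ 2 * ‖L v‖ ^ 2 := by positivity
    nlinarith
  | succ k ih =>
    intro y r a L hy hr hrδ hδr h v w hv hw
    by_cases h2r : 2 * r ≤ δ
    · obtain ⟨a', L', h'⟩ := hex y (2 * r) hy (by linarith) h2r
      have h1 := ih y (2 * r) a' L' hy (by linarith) h2r (by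
        rw [pow_succ] at hδr
        linarith) h' v w hv hw
      have h2 := (h.step hr h' (by linarith) le_rfl hw).1
      have h3 := (h.step hr h' (by linarith) le_rfl hv).2
      have h4 : ‖L w‖ ^ 2 ≤ (22 / 19) ^ 2 * ‖L' w‖ ^ 2 := by
        have := pow_le_pow_left₀ (norm_nonneg _) h2 2
        rwa [mul_pow] at this
      have h5 : ‖L' v‖ ^ 2 ≤ (7 / 6) ^ 2 * ‖L v‖ ^ 2 := by
        have := pow_le_pow_left₀ (norm_nonneg _) h3 2
        rwa [mul_pow] at this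
      have hδ0 : 0 ≤ δ := by linarith
      obtain ⟨D, hD⟩ : ∃ D, D = 2 * C ^ 2 * δ := ⟨_, rfl⟩
      have hD0 : 0 ≤ D := by rw [hD]; positivity
      rw [← hD] at h1 ⊢
      have h6 : D * ‖L' v‖ ^ 2 ≤ D * ((7 / 6) ^ 2 * ‖L v‖ ^ 2) := mul_le_mul_of_nonneg_left h5 hD0
      have h7 : ‖L w‖ ^ 2 * r ≤ (22 / 19) ^ 2 * ‖L' w‖ ^ 2 * r :=
        mul_le_mul_of_nonneg_right h4 hr.le
      have h8 : 0 ≤ D * ‖L v‖ ^ 2 := by positivity
      nlinarith
    · push Not at h2r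
      obtain ⟨a', L', h'⟩ := hex y δ hy (by linarith) le_rfl
      have h1 := hC y a' L' hy h' v w hv hw
      have h2 := (h.step hr h' hrδ h2r.le hw).1
      have h3 := (h.step hr h' hrδ h2r.le hv).2
      have h4 : ‖L w‖ ^ 2 ≤ (22 / 19) ^ 2 * ‖L' w‖ ^ 2 := by
        have := pow_le_pow_left₀ (norm_nonneg _) h2 2
        rwa [mul_pow] at this
      have h5 : ‖L' v‖ ^ 2 ≤ (7 / 6) ^ 2 * ‖L v‖ ^ 2 := by
        have := pow_le_pow_left₀ (norm_nonneg _) h3 2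
        rwa [mul_pow] at this
      have h6 : ‖L' w‖ ^ 2 ≤ C ^ 2 * ‖L' v‖ ^ 2 := by
        have := pow_le_pow_left₀ (norm_nonneg _) h1 2
        rwa [mul_pow] at this
      have h7 : C ^ 2 * ‖L' v‖ ^ 2 ≤ C ^ 2 * ((7 / 6) ^ 2 * ‖L v‖ ^ 2) :=
        mul_le_mul_of_nonneg_left h5 (by positivity)
      have h8 : 0 ≤ C ^ 2 * ‖L v‖ ^ 2 := by positivity
      have h9 : ‖L w‖ ^ 2 ≤ 2 * (C ^ 2 * ‖L v‖ ^ 2) := by nlinarith
      calc ‖L w‖ ^ 2 * r ≤ 2 * (C ^ 2 * ‖L v‖ ^ 2) * δ := by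
            apply mul_le_mul h9 hrδ hr.le (by positivity)
        _ = 2 * C ^ 2 * δ * ‖L v‖ ^ 2 := by ring

/-- uniform injectivity -/
theorem sep {G : E n → E n} (hG : ContinuousOn G (closedBall 0 2)) (hi : InjOn G (closedBall 0 2))
    {δ : ℝ} (hδ : 0 < δ) : ∃ c : ℝ, 0 < c ∧ ∀ p ∈ closedBall (0 : E n) 2,
      ∀ q ∈ closedBall (0 : E n) 2, δ ≤ ‖p - q‖ → c ≤ ‖G p - G q‖ := by
  obtain ⟨S, hS⟩ : ∃ S : Set (E n × E n), S = (closedBall 0 2 ×ˢ closedBall 0 2) ∩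
    {x | δ ≤ ‖x.1 - x.2‖} := ⟨_, rfl⟩
  have hSc : IsCompact S := by
    rw [hS]
    apply IsCompact.inter_right ((isCompact_closedBall _ _).prod (isCompact_closedBall _ _))
    exact isClosed_le continuous_const (by fun_prop)
  by_cases hne : S.Nonempty
  · have hc : ContinuousOn (fun x : E n × E n => ‖G x.1 - G x.2‖) S := by
      apply ContinuousOn.norm
      apply ContinuousOn.sub
      · apply hG.comp continuous_fst.continuousOn
        intro x hx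
        rw [hS] at hx
        exact hx.1.1
      · apply hG.comp continuous_snd.continuousOn
        intro x hx
        rw [hS] at hx
        exact hx.1.2
    obtain ⟨x, hx, hmin⟩ := hSc.exists_isMinOn hne hc
    refine ⟨‖G x.1 - G x.2‖, ?_, fun p hp q hq hpq => ?_⟩
    · rw [hS] at hx
      rw [norm_pos_iff, sub_ne_zero]
      intro h
      have h1 := hi hx.1.1 hx.1.2 h
      have h2 : δ ≤ ‖x.1 - x.2‖ := hx.2
      rw [h1, sub_self, norm_zero] at h2
      linarith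
    · have : (p, q) ∈ S := by
        rw [hS]
        exact ⟨⟨hp, hq⟩, hpq⟩
      have h1 : (fun x : E n × E n => ‖G x.1 - G x.2‖) x ≤
          (fun x : E n × E n => ‖G x.1 - G x.2‖) (p, q) := isMinOn_iff.1 hmin _ this
      exact h1
  · refine ⟨1, one_pos, fun p hp q hq hpq => ?_⟩
    exfalso
    apply hne
    refine ⟨(p, q), ?_⟩
    rw [hS]
    exact ⟨⟨hp, hq⟩, hpq⟩

theorem unit_mem {y v : E n} {δ r : ℝ} (hy : ‖y‖ ≤ δ) (hv : ‖v‖ = 1) (hr : 0 ≤ r) (hrδ : r ≤ δ)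
    (hδ1 : δ ≤ 1) : y + r • v ∈ closedBall (0 : E n) 2 := by
  rw [mem_closedBall_zero_iff]
  refine (norm_add_le _ _).trans ?_
  rw [norm_smul, hv, mul_one, Real.norm_of_nonneg hr]
  linarith

/-- the distortion at the first scale -/
theorem first {G : E n → E n} (hG : ContinuousOn G (closedBall 0 2))
    (hi : InjOn G (closedBall 0 2)) {δ : ℝ} (hδ : 0 < δ) (hδ1 : δ ≤ 1) :
    ∃ C : ℝ, ∀ (y a : E n) (L : E n →L[ℝ] E n), ‖y‖ ≤ δ → Apx G (1 / 20) y δ a L →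
      ∀ v w : E n, ‖v‖ = 1 → ‖w‖ = 1 → ‖L w‖ ≤ C * ‖L v‖ := by
  obtain ⟨c, hc, hcs⟩ := sep hG hi hδ
  obtain ⟨Mx, hM⟩ := (isCompact_closedBall (0 : E n) 2).exists_bound_of_continuousOn hG
  refine ⟨5 * Mx / c, fun y a L hy h v w hv hw => ?_⟩
  have hy2 : y ∈ closedBall (0 : E n) 2 := by
    rw [mem_closedBall_zero_iff]
    linarith
  have key : ∀ u : E n, ‖u‖ = 1 →
      ‖(G (y + δ • u) - G y) - δ • L u‖ ≤ 1 / 10 * (δ * ‖L u‖) := by
    intro u hu
    have h1 := h (y + δ • u) (by rw [add_sub_cancel_left, norm_smul, hu, mul_one,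
      Real.norm_of_nonneg hδ.le]) u hu
    have h2 := h y (by rw [sub_self, norm_zero]; exact hδ.le) u hu
    have h3 : (G (y + δ • u) - G y) - δ • L u =
        (G (y + δ • u) - (a + L (y + δ • u))) - (G y - (a + L y)) := by
      rw [map_add, map_smul]
      abel
    rw [h3]
    refine (norm_sub_le _ _).trans ?_
    linarith
  have hv1 : c ≤ 2 * (δ * ‖L v‖) := by
    have h1 := hcs (y + δ • v) (unit_mem hy hv hδ.le le_rfl hδ1) y hy2 (by
      rw [add_sub_cancel_left, norm_smul, hv, mul_one, Real.norm_of_nonneg hδ.le])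
    have h2 := key v hv
    have h3 := norm_add_le ((G (y + δ • v) - G y) - δ • L v) (δ • L v)
    rw [sub_add_cancel] at h3
    have h4 : ‖δ • L v‖ = δ * ‖L v‖ := by rw [norm_smul, Real.norm_of_nonneg hδ.le]
    have h5 : 0 ≤ δ * ‖L v‖ := by positivity
    linarith
  have hw1 : δ * ‖L w‖ ≤ 20 / 9 * Mx := by
    have h2 := key w hw
    have h3 := norm_sub_le (G (y + δ • w) - G y) ((G (y + δ • w) - G y) - δ • L w)
    rw [sub_sub_cancel] at h3
    have h4 : ‖δ • L w‖ = δ * ‖L w‖ := by rw [norm_smul, Real.norm_of_nonneg hδ.le]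
    have h5 := norm_sub_le (G (y + δ • w)) (G y)
    have h6 := hM _ (unit_mem hy hw hδ.le le_rfl hδ1)
    have h7 := hM _ hy2
    linarith
  have hMx : 0 ≤ Mx := (norm_nonneg _).trans (hM _ hy2)
  have h8 : δ * (‖L w‖ * c) ≤ δ * (5 * Mx * ‖L v‖) := by
    calc δ * (‖L w‖ * c) = δ * ‖L w‖ * c := by ring
      _ ≤ (20 / 9 * Mx) * (2 * (δ * ‖L v‖)) := by
          apply mul_le_mul hw1 hv1 hc.le (by positivity)
      _ ≤ δ * (5 * Mx * ‖L v‖) := by
          have : 0 ≤ Mx * (δ * ‖L v‖) := by positivity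
          nlinarith
  have h9 := le_of_mul_le_mul_left h8 hδ
  rw [div_mul_eq_mul_div, le_div_iff₀ hc]
  exact h9

/-- **the distortion is small compared with the inverse of the radius** -/
theorem small_cond {G : E n → E n} (hG : ContinuousOn G (closedBall 0 2))
    (hi : InjOn G (closedBall 0 2)) {δ : ℝ} (hδ : 0 < δ) (hδ1 : δ ≤ 1)
    (hex : ∀ (y : E n) (r : ℝ), ‖y‖ ≤ δ → 0 < r → r ≤ δ → ∃ a L, Apx G (1 / 20) y r a L)
    {η : ℝ} (hη : 0 < η) :
    ∃ ρ : ℝ, 0 < ρ ∧ ρ ≤ δ ∧ ∀ (y : E n) (r : ℝ) (a : E n) (L : E n →L[ℝ] E n), ‖y‖ ≤ δ →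
      0 < r → r ≤ ρ → Apx G (1 / 20) y r a L → ∀ v w : E n, ‖v‖ = 1 → ‖w‖ = 1 →
      ‖L w‖ * r ≤ η * ‖L v‖ := by
  obtain ⟨C, hC⟩ := first hG hi hδ hδ1
  have hcb := cond_bound hex hC
  obtain ⟨D, hD⟩ : ∃ D, D = 2 * C ^ 2 * δ := ⟨_, rfl⟩
  have hD0 : 0 ≤ D := by rw [hD]; positivity
  rw [← hD] at hcb
  refine ⟨min δ (η ^ 2 / (D + 1)), lt_min hδ (by positivity), min_le_left _ _, ?_⟩
  intro y r a L hy hr hrρ h v w hv hw
  have hrδ := hrρ.trans (min_le_left _ _)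
  have hrη := hrρ.trans (min_le_right _ _)
  rw [le_div_iff₀ (by linarith)] at hrη
  obtain ⟨k, hk⟩ : ∃ k : ℕ, δ ≤ 2 ^ k * r := by
    obtain ⟨k, hk⟩ := pow_unbounded_of_one_lt (δ / r) (by norm_num : (1 : ℝ) < 2)
    refine ⟨k, ?_⟩
    rw [div_lt_iff₀ hr] at hk
    exact hk.le
  have h1 := hcb k y r a L hy hr hrδ hk h v w hv hw
  have h2 : (‖L w‖ * r) ^ 2 ≤ (η * ‖L v‖) ^ 2 := by
    have h3 : (‖L w‖ * r) ^ 2 = (‖L w‖ ^ 2 * r) * r := by ring
    rw [h3, mul_pow]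
    calc ‖L w‖ ^ 2 * r * r ≤ D * ‖L v‖ ^ 2 * r := mul_le_mul_of_nonneg_right h1 hr.le
      _ = (r * D) * ‖L v‖ ^ 2 := by ring
      _ ≤ η ^ 2 * ‖L v‖ ^ 2 := by
          apply mul_le_mul_of_nonneg_right _ (by positivity)
          nlinarith
  exact (pow_le_pow_iff_left₀ (by positivity) (by positivity) (by norm_num)).1 h2

/-- the linear part is injective -/
theorem Apx.pos {G : E n → E n} {ε r : ℝ} {y a : E n} {L : E n →L[ℝ] E n}
    (h : Apx G ε y r a L) (hr : 0 < r) {v : E n} (hv : ‖v‖ = 1) (hG : G (y + r • v) ≠ G y) :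
    0 < ‖L v‖ := by
  rw [norm_pos_iff]
  intro h0
  apply hG
  have h1 := h (y + r • v) (by rw [add_sub_cancel_left, norm_smul, hv, mul_one,
    Real.norm_of_nonneg hr.le]) v hv
  have h2 := h y (by rw [sub_self, norm_zero]; exact hr.le) v hv
  rw [h0, norm_zero, mul_zero, mul_zero] at h1 h2
  have h3 := sub_eq_zero.1 (norm_le_zero_iff.1 h1)
  have h4 := sub_eq_zero.1 (norm_le_zero_iff.1 h2)
  rw [h3, h4, map_add, map_smul, h0, smul_zero, add_zero]

end Pool.Agent.U498.AA
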