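import Pool.Agent.U498.AA.Loc
import Pool.Agent.U211.BL.Final

/-!
# Smoothing of asymptotically affine homeomorphisms

`smoothingA` and `bcoreA` follow `Pool/Agent/U211/BL/Glob.lean` and `Pool/Agent/U211/BL/Final.lean`.
-/

set_option autoImplicit false

open Set Filter Topology Metric Function MeasureTheory
open scoped Manifold ContDiff

noncomputable section

namespace Pool.Agent.U498.AA

open Pool.Agent.Y522 Pool.Agent.U211.BL Pool.Agent.Y833.SH Pool.Agent.Y674.SH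

section local_

variable {n : ℕ}

theorem AAc.congr {G G' : E n → E n} (h : AAc G) (hG : ∀ᶠ p in 𝓝 (0 : E n), G' p = G p) :
    AAc G' := by
  obtain ⟨s, hs, hb⟩ := Metric.eventually_nhds_iff_ball.1 hG
  intro ε hε
  obtain ⟨δ, hδ, h1⟩ := h ε hε
  refine ⟨min δ (s / 3), lt_min hδ (by positivity), fun y r hy hr hrδ => ?_⟩
  obtain ⟨a, L, h2⟩ := h1 y r (hy.trans (min_le_left _ _)) hr (hrδ.trans (min_le_left _ _))
  refine ⟨a, L, fun p hp v hv => ?_⟩
  have h3 : p ∈ ball (0 : E n) s := by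
    rw [mem_ball_zero_iff]
    have h4 := norm_add_le (p - y) y
    rw [sub_add_cancel] at h4
    have h5 := hy.trans (min_le_right _ _)
    have h6 := hrδ.trans (min_le_right _ _)
    linarith
  rw [hb p h3]
  exact h2 p hp v hv

theorem AAc.scale {G : E n → E n} (h : AAc G) {τ : ℝ} (hτ : 0 < τ) (hτ1 : τ ≤ 1) :
    AAc (fun p => G (τ • p)) := by
  intro ε hε
  obtain ⟨δ, hδ, h1⟩ := h ε hε
  refine ⟨δ, hδ, fun y r hy hr hrδ => ?_⟩
  have hn : ∀ p : E n, ‖τ • p‖ = τ * ‖p‖ := fun p => by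
    rw [norm_smul, Real.norm_of_nonneg hτ.le]
  obtain ⟨a, L, h2⟩ := h1 (τ • y) (τ * r) (by
    rw [hn]
    have := norm_nonneg y
    nlinarith) (by positivity) (by nlinarith)
  refine ⟨a, τ • L, fun p hp v hv => ?_⟩
  have h3 := h2 (τ • p) (by
    rw [← smul_sub, hn]
    exact mul_le_mul_of_nonneg_left hp hτ.le) v hv
  have h4 : (τ • L) p = L (τ • p) := by rw [_root_.smul_apply, map_smul]
  have h5 : ‖(τ • L) v‖ = τ * ‖L v‖ := by
    rw [_root_.smul_apply, norm_smul, Real.norm_of_nonneg hτ.le]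
  rw [h4, h5]
  refine h3.trans (le_of_eq (by ring))

/-- asymptotically affine at `x`, in some smooth parametrization -/
def AAat (n : ℕ) {X : Type} [TopologicalSpace X] [ChartedSpace (E n) X] (F : X → E n) (x : X) :
    Prop :=
  ∃ A : E n → X, A 0 = x ∧ LD n A 0 ∧ AAc (fun p => F (A p))

variable {X : Type} [TopologicalSpace X] [ChartedSpace (E n) X]

theorem AAat_of_LD {F : X → E n} {x : X} (hx : LD n F x) : AAat n F x := by
  obtain ⟨q, hq1, hq2, -, hq4⟩ := hx.exists_inverse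
  refine ⟨fun z => q (z + F x), by simp [hq2], ?_, ?_⟩
  · have h1 : LD n (fun z : E n => z + F x) 0 := LD_add_const (F x) 0
    refine LD.comp_fun (g := q) (f := fun z : E n => z + F x) ?_ h1
    rw [zero_add]
    exact hq1
  · have h1 : AAc (fun p : E n => F x + p) := by
      intro ε hε
      refine ⟨1, one_pos, fun y r _ hr _ => ⟨F x, ContinuousLinearMap.id ℝ _, fun p _ v _ => ?_⟩⟩
      simp only [ContinuousLinearMap.id_apply, sub_self, norm_zero]
      positivity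
    apply h1.congr
    have h2 : Tendsto (fun p : E n => p + F x) (𝓝 0) (𝓝 (F x)) := by
      have : Continuous fun p : E n => p + F x := by fun_prop
      have h3 := this.tendsto 0
      rwa [zero_add] at h3
    filter_upwards [h2.eventually hq4] with p hp
    rw [hp, add_comm]

/-- boxes from parametrizations -/
theorem exists_boxA {F : X → E n} {x : X} (h : AAat n F x) :
    ∃ B : E n → X, B 0 = x ∧ Box B ∧ AAc (fun p => F (B p)) := by
  obtain ⟨A, hA0, hAd, hAA⟩ := h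
  obtain ⟨s, hs, hsi⟩ := hAd.eventually_injOn
  obtain ⟨t, ht, hts⟩ := Metric.eventually_nhds_iff_ball.1 (hAd.eventually.and
    (show ∀ᶠ y in 𝓝 (0 : E n), y ∈ s from hs))
  obtain ⟨τ, hτ⟩ : ∃ τ, τ = min (t / 4) 1 := ⟨_, rfl⟩
  have hτ0 : 0 < τ := by rw [hτ]; exact lt_min (by linarith) one_pos
  have hτt : τ ≤ t / 4 := by rw [hτ]; exact min_le_left _ _
  have hτ1 : τ ≤ 1 := by rw [hτ]; exact min_le_right _ _
  have hnm : ∀ z ∈ closedBall (0 : E n) 2, ‖τ • z‖ ≤ 2 * τ := by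
    intro z hz
    rw [mem_closedBall_zero_iff] at hz
    rw [norm_smul, Real.norm_of_nonneg hτ0.le]
    nlinarith
  refine ⟨fun z => A (τ • z), by simp only [smul_zero]; exact hA0, ⟨?_, ?_⟩, hAA.scale hτ0 hτ1⟩
  · intro z hz w hw hzw
    have h1 := (hts (τ • z) (by rw [mem_ball_zero_iff]; linarith [hnm z hz])).2
    have h2 := (hts (τ • w) (by rw [mem_ball_zero_iff]; linarith [hnm w hw])).2
    exact smul_right_injective _ hτ0.ne' (hsi h1 h2 hzw)
  · intro z hz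
    have h1 := (hts (τ • z) (by rw [mem_ball_zero_iff]; linarith [hnm z hz])).1
    have h2 : LD n (fun y : E n => τ • y) z :=
      LD_linear (ContinuousLinearEquiv.smulLeft (Units.mk0 τ hτ0.ne')) z
    exact LD.comp_fun (g := A) (f := fun y : E n => τ • y) h1 h2

end local_

section glob

variable {n : ℕ} {X : Type} [TopologicalSpace X] [ChartedSpace (E n) X] [T2Space X]

theorem smoothingB (F : X → E n) (hF : Continuous F) (hFi : Injective F)
    (hAA : ∀ x, AAat n F x) {N : ℕ} (B : Fin N → E n → X) (hB : ∀ i, Box (B i))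
    (hK : ∀ x, ¬ LD n F x → ∃ i, x ∈ B i '' ball 0 (1 / 2)) {ε₀ : ℝ} (hε₀ : 0 < ε₀) :
    ∃ F' : X → E n, (∀ x, (∀ i, x ∉ B i '' closedBall 0 1) → F' x = F x) ∧
      (∀ x, LD n F' x) ∧ (∀ x, ‖F' x - F x‖ ≤ ε₀) ∧ ((∀ x, ‖F x‖ < 1) → ∀ x, ‖F' x‖ < 1) := by
  obtain ⟨K⟩ := exists_ker n (r := 1 / 2) (by norm_num) (by norm_num)
  -- the local scales
  have hloc : ∀ x : X, ∃ (A : E n → X) (δ₀ η₀ : ℝ), A 0 = x ∧ Box A ∧ 0 < δ₀ ∧ 0 < η₀ ∧
      ∀ δ, 0 < δ → δ ≤ δ₀ → (∀ i, Rad (fun z => δ * rr (ps B) (B i) z)) → ∀ y : E n, ‖y‖ ≤ η₀ →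
      0 < ps B (A y) → LD n (Fs K B F (fun i z => δ * rr (ps B) (B i) z)) (A y) := by
    intro x
    obtain ⟨A, hA0, hA, hAAc⟩ := exists_boxA (hAA x)
    obtain ⟨δ₀, η₀, h1, h2, h3⟩ := local_LD K hB hA hF hFi hAAc
    exact ⟨A, δ₀, η₀, hA0, hA, h1, h2, h3⟩
  choose A δ₀ η₀ hA0 hA hδ₀ hη₀ hLD using hloc
  have hQ : IsCompact (⋃ i, B i '' closedBall 0 (1 / 2)) :=
    isCompact_iUnion fun i => box_isCompact (hB i) (by norm_num)
  have hU : ∀ x ∈ ⋃ i, B i '' closedBall 0 (1 / 2), A x '' ball 0 (min (η₀ x) 1) ∈ 𝓝 x := by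
    intro x _
    have h2 : LD n (A x) 0 := (hA x).ld 0 (by simp)
    have h3 := h2.image_mem_nhds (ball_mem_nhds (0 : E n) (lt_min (hη₀ x) one_pos))
    rwa [hA0 x] at h3
  obtain ⟨t, -, ht⟩ := hQ.elim_nhds_subcover (fun x => A x '' ball 0 (min (η₀ x) 1)) hU
  obtain ⟨δm, hδm, hδm'⟩ := exists_lower' (fun x : t => δ₀ x.1) (fun x => hδ₀ _)
  -- uniform continuity
  have huc : ∀ i : Fin N, ∃ θ : ℝ, 0 < θ ∧ ∀ p ∈ closedBall (0 : E n) 2,
      ∀ q ∈ closedBall (0 : E n) 2, ‖p - q‖ ≤ θ → ‖F (B i p) - F (B i q)‖ ≤ ε₀ := by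
    intro i
    have h1 := (isCompact_closedBall (0 : E n) 2).uniformContinuousOn_of_continuous
      (contOn (hB i) hF)
    rw [Metric.uniformContinuousOn_iff] at h1
    obtain ⟨θ, hθ, h2⟩ := h1 ε₀ hε₀
    refine ⟨θ / 2, by positivity, fun p hp q hq hpq => ?_⟩
    have h3 := h2 p hp q hq (by rw [dist_eq_norm]; linarith)
    rw [dist_eq_norm] at h3
    exact h3.le
  choose θ hθ0 hθ using huc
  obtain ⟨θm, hθm, hθm'⟩ := exists_lower' θ hθ0
  -- the scale
  obtain ⟨δ, ⟨d1, d2, d3⟩, hδ⟩ := (((small (N : ℝ) (D := 1 / 4) (by norm_num)).and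
    ((small (N : ℝ) (D := θm) hθm).and (small 1 (D := δm) hδm))).and self_mem_nhdsWithin).exists
  have hδ0 : 0 < δ := hδ
  rw [mul_one] at d3
  have hrr0 : ∀ i z, 0 ≤ rr (ps B) (B i) z := fun i z => rr_nonneg (ps_nonneg B) (B i) z
  have hrr1 : ∀ i z, rr (ps B) (B i) z ≤ N := fun i z => rr_le (ps_nonneg B) (ps_le B) (B i) z
  have hδN : ∀ i z, δ * rr (ps B) (B i) z ≤ δ * N := fun i z =>
    mul_le_mul_of_nonneg_left (hrr1 i z) hδ0.le
  have hRad : ∀ i, Rad (fun z => δ * rr (ps B) (B i) z) := by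
    intro i
    refine ⟨contDiff_const.mul (rr_smooth (ps_smooth B hB) (hB i)), fun z =>
      mul_nonneg hδ0.le (hrr0 i z), fun z => (hδN i z).trans d1.le, fun z hz => ?_⟩
    rw [rr_zero _ _ hz, mul_zero]
  refine ⟨Fs K B F (fun i z => δ * rr (ps B) (B i) z), fun x hx => Fs_off K B F _ hx, ?_, ?_, ?_⟩
  · intro x
    rcases (ps_nonneg B x).lt_or_eq with hx | hx
    · have hxQ : x ∈ ⋃ i, B i '' closedBall 0 (1 / 2) := by
        by_contra hcon
        have h1 : ps B x = 0 := by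
          unfold ps
          apply Finset.sum_eq_zero
          intro i _
          apply lf_zero (hB i) (fun z hz => p0_zero hz.le)
          intro h2
          exact hcon (mem_iUnion.2 ⟨i, h2⟩)
        rw [h1] at hx
        exact lt_irrefl _ hx
      have h2 := ht hxQ
      rw [mem_iUnion₂] at h2
      obtain ⟨x', hx', y, hy, rfl⟩ := h2
      rw [mem_ball_zero_iff] at hy
      exact hLD x' δ hδ0 (d3.le.trans (hδm' ⟨x', hx'⟩)) hRad y (hy.le.trans (min_le_left _ _)) hx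
    · have hLD : LD n F x := by
        by_contra hcon
        obtain ⟨i, hi⟩ := hK x hcon
        have := ps_pos B hB hi
        rw [← hx] at this
        exact lt_irrefl _ this
      apply Fs_LD_null K hB hF hRad hLD
      intro i z hz
      unfold rr
      rw [hz, ← hx, zero_mul, mul_zero]
  · intro x
    have hMi : ∀ i, ‖Mi K (B i) F (fun z => δ * rr (ps B) (B i) z) x - F x‖ ≤ ε₀ := by
      intro i
      by_cases hx : x ∈ B i '' closedBall 0 1
      · obtain ⟨z, hz, rfl⟩ := hx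
        rw [mem_closedBall_zero_iff] at hz
        rw [Mi_of K (hB i) (hRad i).zero (by linarith)]
        apply mol_close' K (contOn (hB i) hF) (hRad i) (by linarith)
        intro p hp
        have h1 := (hRad i).le z
        have h2 : ‖p - z‖ ≤ θm := hp.trans ((hδN i z).trans d2.le)
        apply hθ i p _ z _ (h2.trans (hθm' i))
        · rw [mem_closedBall_zero_iff]
          have h4 := norm_add_le (p - z) z
          rw [sub_add_cancel] at h4
          linarith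
        · rw [mem_closedBall_zero_iff]
          linarith
      · rw [Mi_off K hx, sub_self, norm_zero]
        exact hε₀.le
    unfold Fs
    rw [add_sub_cancel_left]
    calc ‖∑ i, wt B i x • (Mi K (B i) F (fun z => δ * rr (ps B) (B i) z) x - F x)‖
        ≤ ∑ i, ‖wt B i x • (Mi K (B i) F (fun z => δ * rr (ps B) (B i) z) x - F x)‖ :=
          norm_sum_le _ _
      _ ≤ ∑ i, wt B i x * ε₀ := by
          apply Finset.sum_le_sum
          intro i _
          rw [norm_smul, Real.norm_of_nonneg (wt_nonneg B i x)]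
          exact mul_le_mul_of_nonneg_left (hMi i) (wt_nonneg B i x)
      _ = (∑ i, wt B i x) * ε₀ := by rw [Finset.sum_mul]
      _ ≤ 1 * ε₀ := mul_le_mul_of_nonneg_right (wt_sum_le B x) hε₀.le
      _ = ε₀ := one_mul _
  · intro h4 x
    exact Fs_norm_lt K hB hF hRad h4 x

/-- **Smoothing** of a map which is asymptotically affine at the bad points. -/
theorem smoothingA (F : X → E n) (hF : Continuous F) (hFi : Injective F)
    (hK : IsCompact {x | ¬ LD n F x}) (hAA : ∀ x, ¬ LD n F x → AAat n F x) {ε₀ : ℝ}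
    (hε₀ : 0 < ε₀) :
    ∃ (F' : X → E n) (C : Set X), IsCompact C ∧ (∀ x, x ∉ C → F' x = F x) ∧
      (∀ x, LD n F' x) ∧ (∀ x, ‖F' x - F x‖ ≤ ε₀) ∧ ((∀ x, ‖F x‖ < 1) → ∀ x, ‖F' x‖ < 1) := by
  have hAA' : ∀ x, AAat n F x := by
    intro x
    by_cases hx : LD n F x
    · exact AAat_of_LD hx
    · exact hAA x hx
  have h4 : ∀ x : X, ∃ B : E n → X, B 0 = x ∧ Box B := by
    intro x
    obtain ⟨B, h1, h2, -⟩ := exists_boxA (hAA' x)
    exact ⟨B, h1, h2⟩
  choose B hB0 hB using h4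
  have hU : ∀ x ∈ {x | ¬ LD n F x}, B x '' ball 0 (1 / 2) ∈ 𝓝 x := by
    intro x _
    have h2 : LD n (B x) 0 := (hB x).ld 0 (by simp)
    have h3 := h2.image_mem_nhds (ball_mem_nhds (0 : E n) (by norm_num : (0 : ℝ) < 1 / 2))
    rwa [hB0 x] at h3
  obtain ⟨t, -, ht⟩ := hK.elim_nhds_subcover (fun x => B x '' ball 0 (1 / 2)) hU
  obtain ⟨F', g1, g2, g3, g4⟩ := smoothingB (N := t.card) F hF hFi hAA'
    (fun j => B (t.equivFin.symm j).1) (fun j => hB _) (by
      intro x hx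
      have h2 := ht hx
      rw [mem_iUnion₂] at h2
      obtain ⟨y, hy, hxy⟩ := h2
      exact ⟨t.equivFin ⟨y, hy⟩, by simpa using hxy⟩) hε₀
  refine ⟨F', ⋃ j : Fin t.card, B (t.equivFin.symm j).1 '' closedBall 0 1, ?_, ?_, g2, g3, g4⟩
  · apply isCompact_iUnion
    intro j
    exact box_isCompact (hB _) (by norm_num)
  · intro x hx
    apply g1
    intro j hj
    exact hx (mem_iUnion.2 ⟨j, hj⟩)

end glob

theorem bcoreA (m : ℕ) (M N X : Type) [TopologicalSpace M] [TopologicalSpace N]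
    [TopologicalSpace X]
    [ChartedSpace (EuclideanHalfSpace (m + 1)) M] [ChartedSpace (EuclideanHalfSpace (m + 1)) N]
    [ChartedSpace (E (m + 1)) X]
    [IsManifold (𝓡∂ (m + 1)) ∞ M] [IsManifold (𝓡∂ (m + 1)) ∞ N] [IsManifold (𝓡 (m + 1)) ∞ X]
    (ι : X → M) (hι : Injective ι) (hιr : range ι = (𝓡∂ (m + 1)).interior M)
    (hιd : ∀ x, IsLocalDiffeomorphAt (𝓡 (m + 1)) (𝓡∂ (m + 1)) ∞ ι x)
    (h : M ≃ₜ closedBall (0 : E (m + 1)) 1) (j : N ≃ₜ closedBall (0 : E (m + 1)) 1)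
    (hj : ∀ y ∈ (𝓡∂ (m + 1)).interior N,
      IsLocalDiffeomorphAt (𝓡∂ (m + 1)) (𝓡 (m + 1)) ∞ (fun y => (j y : E (m + 1))) y)
    (hb : ∀ x ∉ (𝓡∂ (m + 1)).interior M,
      IsLocalDiffeomorphAt (𝓡∂ (m + 1)) (𝓡∂ (m + 1)) ∞ (fun x => j.symm (h x)) x)
    (hc : ∀ x ∈ (𝓡∂ (m + 1)).interior M,
      ¬ IsLocalDiffeomorphAt (𝓡∂ (m + 1)) (𝓡 (m + 1)) ∞ (fun x => (h x : E (m + 1))) x →
      ∃ A : E (m + 1) → M, A 0 = x ∧
      IsLocalDiffeomorphAt (𝓡 (m + 1)) (𝓡∂ (m + 1)) ∞ A 0 ∧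
        AAc (fun p => (h (A p) : E (m + 1))))
    {ε₀ : ℝ} (hε₀ : 0 < ε₀) :
    ∃ (Φ : Diffeomorph (𝓡∂ (m + 1)) (𝓡∂ (m + 1)) M N ∞) (C : Set M), IsCompact C ∧
      C ⊆ (𝓡∂ (m + 1)).interior M ∧ (∀ x, x ∉ C → j (Φ x) = h x) ∧
      ∀ x, ‖(j (Φ x) : E (m + 1)) - h x‖ ≤ ε₀ := by
  classical
  have hK := nonLD_compact m M N X ι hι hιr hιd h j hj hb
  have hMi : ∀ x, x ∈ (𝓡∂ (m + 1)).interior M ↔ ‖(h x : E (m + 1))‖ < 1 :=
    int_iff (𝓡∂ (m + 1)) inferInstance h
  have : T2Space M := h.symm.t2Space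
  have : CompactSpace M := h.symm.compactSpace
  have hιc : Continuous ι := continuous_iff_continuousAt.2 fun x => (hιd x).contMDiffAt.continuousAt
  have : T2Space X := T2Space.of_injective_continuous hι hιc
  have hιo : IsOpenMap ι := IsLocalDiffeomorph.isOpenMap (I := 𝓡 (m + 1)) (J := 𝓡∂ (m + 1))
    (n := ∞) hιd
  have hemb : IsOpenEmbedding ι := IsOpenEmbedding.of_continuous_injective_isOpenMap hιc hι hιo
  have hmem : ∀ x, ι x ∈ (𝓡∂ (m + 1)).interior M := fun x => hιr ▸ mem_range_self x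
  obtain ⟨F, hF⟩ : ∃ F : X → E (m + 1), F = fun x => (h (ι x) : E (m + 1)) := ⟨_, rfl⟩
  have hFe : ∀ x, F x = h (ι x) := fun x => by rw [hF]
  rw [← hF] at hK
  have hFn : ∀ x, ‖F x‖ < 1 := fun x => by rw [hFe]; exact (hMi _).1 (hmem x)
  have hFc : Continuous F := by
    rw [hF]
    exact continuous_subtype_val.comp (h.continuous.comp hιc)
  have hFi : Injective F := by
    intro a b hab
    rw [hFe, hFe] at hab
    exact hι (h.injective (Subtype.ext hab))
  have hFr : range F = ball 0 1 := by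
    ext y
    constructor
    · rintro ⟨x, rfl⟩
      rw [mem_ball_zero_iff]
      exact hFn x
    · intro hy
      rw [mem_ball_zero_iff] at hy
      have hyc : y ∈ closedBall (0 : E (m + 1)) 1 := by
        rw [mem_closedBall_zero_iff]
        exact hy.le
      have h1 : h.symm ⟨y, hyc⟩ ∈ range ι := by
        rw [hιr, hMi, h.apply_symm_apply]
        exact hy
      obtain ⟨x, hx⟩ := h1
      refine ⟨x, ?_⟩
      rw [hFe, hx, h.apply_symm_apply]
  have hFo : IsOpenMap F := by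
    intro U hU
    obtain ⟨W, hW, hWU⟩ := isOpen_induced_iff.1 (h.isOpenMap _ (hιo U hU))
    have : F '' U = W ∩ ball 0 1 := by
      ext y
      constructor
      · rintro ⟨x, hx, rfl⟩
        refine ⟨?_, ?_⟩
        · have : h (ι x) ∈ h '' (ι '' U) := ⟨ι x, ⟨x, hx, rfl⟩, rfl⟩
          rw [← hWU] at this
          rw [hFe]
          exact this
        · rw [mem_ball_zero_iff]
          exact hFn x
      · rintro ⟨h1, h2⟩
        rw [← hFr] at h2
        obtain ⟨x, rfl⟩ := h2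
        have h3 : h (ι x) ∈ Subtype.val ⁻¹' W := by
          rw [mem_preimage, ← hFe]
          exact h1
        rw [hWU] at h3
        obtain ⟨_, ⟨x', hx', rfl⟩, h4⟩ := h3
        refine ⟨x', hx', ?_⟩
        rw [hFe, hFe, h4]
    rw [this]
    exact hW.inter isOpen_ball
  have hFe' : IsOpenEmbedding F := IsOpenEmbedding.of_continuous_injective_isOpenMap hFc hFi hFo
  have hD : ∀ x, ¬ LD (m + 1) F x → AAat (m + 1) F x := by
    intro x hxF
    obtain ⟨A, hA0, hAd, hA⟩ := hc (ι x) (hmem x) (fun hld => hxF (by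
      have h9 : IsLocalDiffeomorphAt (𝓡 (m + 1)) (𝓡 (m + 1)) ∞
          ((fun x => (h x : E (m + 1))) ∘ ι) x :=
        IsLocalDiffeomorphAt.comp (𝓡 (m + 1)) (E (m + 1)) (hιd x) hld
      rw [hF]
      exact h9))
    -- the local inverse of the inclusion
    have ha := (hιd x).localInverse_isLocalDiffeomorphAt
    have hax : (hιd x).localInverse (ι x) = x :=
      (hιd x).localInverse_left_inv (hιd x).localInverse_mem_target
    have hA' : LD (m + 1) ((hιd x).localInverse ∘ A) 0 := by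
      rw [← hA0] at ha
      exact IsLocalDiffeomorphAt.comp (𝓡 (m + 1)) X hAd ha
    have hev : ∀ᶠ z in 𝓝 (0 : E (m + 1)), ι ((hιd x).localInverse (A z)) = A z := by
      have h1 : A 0 ∈ (hιd x).localInverse.source := by
        rw [hA0]
        exact (hιd x).localInverse_mem_source
      filter_upwards [hAd.contMDiffAt.continuousAt
        ((hιd x).localInverse.open_source.mem_nhds h1)] with z hz
      exact (hιd x).localInverse_right_inv hz
    refine ⟨(hιd x).localInverse ∘ A, ?_, hA', hA.congr ?_⟩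
    · rw [comp_apply, hA0, hax]
    · filter_upwards [hev] with z hz
      rw [hFe, comp_apply, hz]
  obtain ⟨F', C, hC, hF'C, hF'd, hcl, hlt⟩ := smoothingA F hFc hFi hK hD hε₀
  obtain ⟨hF'i, hF'r⟩ := Pool.Agent.Y899.SH.cover (m + 1) X F F' C hFe' hFr hC hF'C (hlt hFn) hF'd
  obtain ⟨Φ, hΦ1, hΦ2⟩ := glue' m M N X ι hι hιr hιd h j hj hb F' C hC hF'i
    (by rw [hF'r, ← hFr, hF]) (fun x hx => by rw [hF'C x hx, hFe]) hF'd
  refine ⟨Φ, ι '' C, hC.image hιc, ?_, ?_, ?_⟩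
  · rintro _ ⟨x, -, rfl⟩
    exact hmem x
  · intro y hy
    by_cases hyr : y ∈ range ι
    · obtain ⟨x, rfl⟩ := hyr
      refine Subtype.ext ?_
      rw [hΦ1, hF'C x (fun hx => hy ⟨x, hx, rfl⟩), hFe]
    · exact hΦ2 y hyr
  · intro y
    by_cases hyr : y ∈ range ι
    · obtain ⟨x, rfl⟩ := hyr
      rw [hΦ1, ← hFe]
      exact hcl x
    · rw [hΦ2 y hyr, sub_self, norm_zero]
      exact hε₀.le

/-- Homeomorphisms onto the ball which are local diffeomorphisms at the boundary points and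
asymptotically affine at those interior points at which they are not local diffeomorphisms. -/
theorem bcompactA (m : ℕ) (M N : Type) [TopologicalSpace M] [TopologicalSpace N]
    [ChartedSpace (EuclideanHalfSpace (m + 1)) M] [ChartedSpace (EuclideanHalfSpace (m + 1)) N]
    [IsManifold (𝓡∂ (m + 1)) ∞ M] [IsManifold (𝓡∂ (m + 1)) ∞ N]
    (h : M ≃ₜ closedBall (0 : E (m + 1)) 1) (j : N ≃ₜ closedBall (0 : E (m + 1)) 1)
    (hj : ∀ y ∈ (𝓡∂ (m + 1)).interior N,
      IsLocalDiffeomorphAt (𝓡∂ (m + 1)) (𝓡 (m + 1)) ∞ (fun y => (j y : E (m + 1))) y)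
    (hb : ∀ x ∉ (𝓡∂ (m + 1)).interior M,
      IsLocalDiffeomorphAt (𝓡∂ (m + 1)) (𝓡∂ (m + 1)) ∞ (fun x => j.symm (h x)) x)
    (hc : ∀ x ∈ (𝓡∂ (m + 1)).interior M,
      ¬ IsLocalDiffeomorphAt (𝓡∂ (m + 1)) (𝓡 (m + 1)) ∞ (fun x => (h x : E (m + 1))) x →
      ∃ A : E (m + 1) → M, A 0 = x ∧
      IsLocalDiffeomorphAt (𝓡 (m + 1)) (𝓡∂ (m + 1)) ∞ A 0 ∧
        AAc (fun p => (h (A p) : E (m + 1))))
    {ε₀ : ℝ} (hε₀ : 0 < ε₀) :
    ∃ (Φ : Diffeomorph (𝓡∂ (m + 1)) (𝓡∂ (m + 1)) M N ∞) (C : Set M), IsCompact C ∧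
      C ⊆ (𝓡∂ (m + 1)).interior M ∧ (∀ x, x ∉ C → j (Φ x) = h x) ∧
      ∀ x, ‖(j (Φ x) : E (m + 1)) - h x‖ ≤ ε₀ := by
  let := csI (M := M) (𝓡∂ (m + 1))
  have := mfI (M := M) (𝓡∂ (m + 1))
  exact bcoreA m M N ((𝓡∂ (m + 1)).interior M) Subtype.val Subtype.val_injective
    Subtype.range_val (fun x => ldiff_val (𝓡∂ (m + 1)) x) h j hj hb hc hε₀

end Pool.Agent.U498.AA
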