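import Pool.Agent.U498.AA.Term

/-!
# The smoothed map is a local diffeomorphism near a point where the map is asymptotically affine
-/

set_option autoImplicit false

open Set Filter Topology Metric Function MeasureTheory
open scoped Manifold ContDiff

noncomputable section

namespace Pool.Agent.U498.AA

open Pool.Agent.Y522 Pool.Agent.U211.BL

variable {n : ℕ} {X : Type} [TopologicalSpace X] [ChartedSpace (E n) X] [T2Space X]

variable {r₀ : ℝ} (K : Ker n r₀)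

theorem point_LD {CK : ℝ} (hCK : KC (n := n) K CK) {N : ℕ} {B : Fin N → E n → X} {A : E n → X}
    (hB : ∀ i, Box (B i)) (hA : Box A) {F : X → E n} (hF : Continuous F) {δ : ℝ} (hδ : 0 < δ)
    (hc : ∀ i, Rad (fun z => δ * rr (ps B) (B i) z))
    (hc1 : ∀ i z, ‖fderiv ℝ (fun z => δ * rr (ps B) (B i) z) z‖ ≤ 1)
    {y a : E n} (hy : ‖y‖ ≤ 1) (hx : 0 < ps B (A y)) {L : E n →L[ℝ] E n} {ε η Λ Cχ : ℝ}
    (hΛ : 1 ≤ Λ) (hC1 : δ * ps B (A y) ≤ 1) (hη : 0 ≤ η) (hε : 0 ≤ ε)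
    (hap : Apx (fun p => F (A p)) ε y (2 * Λ * (δ * ps B (A y))) a L)
    (hcond : ∀ u w : E n, ‖u‖ = 1 → ‖w‖ = 1 → ‖L w‖ * (2 * Λ * (δ * ps B (A y))) ≤ η * ‖L u‖)
    (hpos : ∀ u : E n, ‖u‖ = 1 → 0 < ‖L u‖)
    (htr : ∀ i z, ‖z‖ ≤ 1 → B i z = A y → ‖fderiv ℝ (tr (B i) A) z‖ ≤ Λ ∧
      ∀ v : E n, ‖v‖ ≤ δ * ps B (A y) → A (tr (B i) A (z + v)) = B i (z + v) ∧
      ‖tr (B i) A (z + v) - y - fderiv ℝ (tr (B i) A) z v‖ ≤ Λ * ‖v‖ ^ 2)
    (htr' : ∀ i z, ‖z‖ ≤ 1 → B i z = A y → ‖fderiv ℝ (tr A (B i)) y‖ ≤ Λ)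
    (hCχ : ∀ i, ‖fderiv ℝ (fun y => wt B i (A y)) y‖ ≤ Cχ)
    (h1 : CK * (2 * ε * Λ + η) * Λ ≤ 1 / 4) (h2 : N * (Cχ * (4 * ε * Λ + 3 * η)) ≤ 1 / 4) :
    LD n (Fs K B F (fun i z => δ * rr (ps B) (B i) z)) (A y) := by
  obtain ⟨c, hcd⟩ : ∃ c : Fin N → E n → ℝ, c = fun i z => δ * rr (ps B) (B i) z := ⟨_, rfl⟩
  have hci : ∀ i z, c i z = δ * rr (ps B) (B i) z := fun i z => by rw [hcd]
  have hci' : ∀ i, c i = fun z => δ * rr (ps B) (B i) z := fun i => by rw [hcd]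
  rw [← hcd]
  obtain ⟨C, hCd⟩ : ∃ C, C = δ * ps B (A y) := ⟨_, rfl⟩
  rw [← hCd] at hC1 hap hcond
  simp only [← hCd] at htr
  have hC : 0 < C := by rw [hCd]; exact mul_pos hδ hx
  have hRad : ∀ i, Rad (c i) := fun i => by rw [hci']; exact hc i
  have hRad1 : ∀ i z, ‖fderiv ℝ (c i) z‖ ≤ 1 := fun i z => by rw [hci']; exact hc1 i z
  have hsum := wt_sum_one B hB hx
  have hAy := (hA.ld y (by rw [mem_closedBall_zero_iff]; linarith)).continuousAt
  have hcz : ∀ i z, ‖z‖ ≤ 3 / 4 → 0 < ps B (B i z) → 0 < c i z := by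
    intro i z hz hp
    rw [hci, rr_one _ _ hz]
    exact mul_pos hδ hp
  have hposB : ∀ᶠ w in 𝓝 (A y), 0 < ps B w :=
    (ps_smooth B hB (A y)).continuousAt.eventually_const_lt hx
  have hpos' : ∀ᶠ w in 𝓝 y, 0 < ps B (A w) := hAy.eventually hposB
  have hlt2 : ∀ᶠ w in 𝓝 y, ‖w‖ < 2 := continuous_norm.continuousAt.eventually_lt_const
    (by linarith)
  apply LD_of_box hA (by linarith)
  have hterm := fun i => termA K hCK hB hA hF (i := i) (hRad i) (hRad1 i) hy (a := a) (L := L)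
    hΛ hC hC1 hη hε (fun z hz hzy => by rw [hci, rr_one _ _ hz, hzy, hCd]) hap hcond (htr i)
    (htr' i) (hCχ i)
  choose Li hL1 hL2 hL3 using hterm
  have hsumev : (fun w => Fs K B F c (A w)) =ᶠ[𝓝 y] fun w =>
      ∑ i, wt B i (A w) • Mi K (B i) F (c i) (A w) := by
    filter_upwards [hpos'] with w hw
    exact Fs_eq_sum K B F c (wt_sum_one B hB hw)
  have hD : HasFDerivAt (fun w => Fs K B F c (A w)) (∑ i, (wt B i (A y) • Li i +
      (fderiv ℝ (fun y => wt B i (A y)) y).smulRight (Mi K (B i) F (c i) (A y)))) y :=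
    (HasFDerivAt.fun_sum fun i _ => hL1 i).congr_of_eventuallyEq hsumev
  have hwsum : ∑ i, fderiv ℝ (fun y => wt B i (A y)) y = 0 := by
    have h1 : HasFDerivAt (fun y => ∑ i, wt B i (A y))
        (∑ i, fderiv ℝ (fun y => wt B i (A y)) y) y :=
      HasFDerivAt.fun_sum fun i _ =>
        ((smooth_in_box hA (by linarith) (wt_smooth B hB i _)).differentiableAt
          (by simp)).hasFDerivAt
    have h2 : (fun y => ∑ i, wt B i (A y)) =ᶠ[𝓝 y] fun _ => (1 : ℝ) := by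
      filter_upwards [hpos'] with w hw
      exact wt_sum_one B hB hw
    exact h1.unique ((hasFDerivAt_const (1 : ℝ) y).congr_of_eventuallyEq h2)
  apply LD_of_pos
  · -- smoothness
    filter_upwards [hpos'.eventually_nhds, hlt2] with w hw hw2
    have hw0 : 0 < ps B (A w) := hw.self_of_nhds
    have h1 : ∀ i, ContDiffAt ℝ ∞ (fun w => wt B i (A w) • Mi K (B i) F (c i) (A w)) w := by
      intro i
      have hjw := hA.ld w (by rw [mem_closedBall_zero_iff]; exact hw2.le)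
      by_cases hm : A w ∈ B i '' closedBall 0 (3 / 4)
      · obtain ⟨z, hz, hzw⟩ := hm
        rw [mem_closedBall_zero_iff] at hz
        have h2 : Sm n (Mi K (B i) F (c i)) (A w) := by
          rw [← hzw]
          exact Mi_smooth_pos K (hB i) hF (hRad i) (hcz i z hz (by rw [hzw]; exact hw0))
        have h3 : ContDiffAt ℝ ∞ (fun w => Mi K (B i) F (c i) (A w)) w :=
          contMDiffAt_iff_contDiffAt.1 (h2.comp w hjw.contMDiffAt)
        exact (smooth_in_box hA hw2.le (wt_smooth B hB i _)).smul h3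
      · have h1 : ∀ᶠ x in 𝓝 (A w), x ∉ B i '' closedBall 0 (3 / 4) :=
          (box_isCompact (hB i) (by norm_num)).isClosed.isOpen_compl.mem_nhds hm
        refine (contDiffAt_const (c := (0 : E n))).congr_of_eventuallyEq ?_
        filter_upwards [hjw.continuousAt.eventually h1] with v hv
        rw [wt_zero B hB hv, zero_smul]
    have h2 : ContDiffAt ℝ ∞ (fun w => ∑ i, wt B i (A w) • Mi K (B i) F (c i) (A w)) w :=
      ContDiffAt.sum fun i _ => h1 i
    refine h2.congr_of_eventuallyEq ?_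
    filter_upwards [hw] with v hv
    exact Fs_eq_sum K B F c (wt_sum_one B hB hv)
  · -- the derivative
    intro u hu h0
    rw [hD.fderiv] at h0
    have hLu := hpos u hu
    have e1 : ∑ i, (wt B i (A y) • Li i u + (fderiv ℝ (fun y => wt B i (A y)) y u) •
        (Mi K (B i) F (c i) (A y) - F (A y))) = 0 := by
      have h2 : ∑ i, (wt B i (A y) • Li i u + (fderiv ℝ (fun y => wt B i (A y)) y u) •
          Mi K (B i) F (c i) (A y)) = 0 := by
        rw [← h0]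
        simp [_root_.sum_apply]
      have h3 : ∑ i, (fderiv ℝ (fun y => wt B i (A y)) y u) • F (A y) = 0 := by
        rw [← Finset.sum_smul]
        have h4 : ∑ i, fderiv ℝ (fun y => wt B i (A y)) y u = 0 := by
          have h5 := congrArg (fun T : E n →L[ℝ] ℝ => T u) hwsum
          simpa [_root_.sum_apply] using h5
        rw [h4, zero_smul]
      have h6 : ∀ i, (wt B i (A y) • Li i u + (fderiv ℝ (fun y => wt B i (A y)) y u) •
        (Mi K (B i) F (c i) (A y) - F (A y))) = (wt B i (A y) • Li i u +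
          (fderiv ℝ (fun y => wt B i (A y)) y u) • Mi K (B i) F (c i) (A y)) -
          (fderiv ℝ (fun y => wt B i (A y)) y u) • F (A y) := by
        intro i
        rw [smul_sub]
        abel
      simp only [h6]
      rw [Finset.sum_sub_distrib, h2, h3, sub_zero]
    have e2 : L u = ∑ i, (-(wt B i (A y) • (Li i u - L u)) -
        (fderiv ℝ (fun y => wt B i (A y)) y u) • (Mi K (B i) F (c i) (A y) - F (A y))) := by
      have h3 : ∑ i, wt B i (A y) • L u = L u := by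
        rw [← Finset.sum_smul, hsum, one_smul]
      have h4 : ∀ i, (-(wt B i (A y) • (Li i u - L u)) -
        (fderiv ℝ (fun y => wt B i (A y)) y u) • (Mi K (B i) F (c i) (A y) - F (A y))) =
        wt B i (A y) • L u - (wt B i (A y) • Li i u +
          (fderiv ℝ (fun y => wt B i (A y)) y u) • (Mi K (B i) F (c i) (A y) - F (A y))) := by
        intro i
        rw [smul_sub]
        abel
      simp only [h4]
      rw [Finset.sum_sub_distrib, h3, e1, sub_zero]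
    have e3 : ‖L u‖ ≤ ∑ i, (wt B i (A y) * (CK * (2 * ε * Λ + η) * Λ * ‖L u‖) +
        Cχ * ((4 * ε * Λ + 3 * η) * ‖L u‖)) := by
      calc ‖L u‖ = ‖∑ i, (-(wt B i (A y) • (Li i u - L u)) -
          (fderiv ℝ (fun y => wt B i (A y)) y u) • (Mi K (B i) F (c i) (A y) - F (A y)))‖ := by
            rw [← e2]
        _ ≤ ∑ i, ‖(-(wt B i (A y) • (Li i u - L u)) -
          (fderiv ℝ (fun y => wt B i (A y)) y u) • (Mi K (B i) F (c i) (A y) - F (A y)))‖ :=
            norm_sum_le _ _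
        _ ≤ _ := by
            apply Finset.sum_le_sum
            intro i _
            refine (norm_sub_le _ _).trans ?_
            rw [norm_neg, norm_smul, norm_smul, Real.norm_of_nonneg (wt_nonneg B i _),
              Real.norm_eq_abs]
            exact add_le_add (hL2 i u hu) (hL3 i u hu)
    rw [Finset.sum_add_distrib, ← Finset.sum_mul, hsum, one_mul, Finset.sum_const,
      Finset.card_univ, Fintype.card_fin, nsmul_eq_mul] at e3
    have e4 : CK * (2 * ε * Λ + η) * Λ * ‖L u‖ ≤ 1 / 4 * ‖L u‖ :=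
      mul_le_mul_of_nonneg_right h1 hLu.le
    have e5 : N * (Cχ * ((4 * ε * Λ + 3 * η) * ‖L u‖)) ≤ 1 / 4 * ‖L u‖ := by
      have : N * (Cχ * ((4 * ε * Λ + 3 * η) * ‖L u‖)) =
        N * (Cχ * (4 * ε * Λ + 3 * η)) * ‖L u‖ := by ring
      rw [this]
      exact mul_le_mul_of_nonneg_right h2 hLu.le
    linarith

/-- the map is close to affine maps at all small scales near the origin -/
def AAc (G : E n → E n) : Prop := ∀ ε > 0, ∃ δ > 0, ∀ (y : E n) (r : ℝ), ‖y‖ ≤ δ → 0 < r → r ≤ δ →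
  ∃ (a : E n) (L : E n →L[ℝ] E n), Apx G ε y r a L

/-- **near a point where the map is asymptotically affine** -/
theorem local_LD {N : ℕ} {B : Fin N → E n → X} {A : E n → X}
    (hB : ∀ i, Box (B i)) (hA : Box A) {F : X → E n} (hF : Continuous F) (hFi : Injective F)
    (hAA : AAc (fun p => F (A p))) :
    ∃ δ₀ η₀ : ℝ, 0 < δ₀ ∧ 0 < η₀ ∧ ∀ δ, 0 < δ → δ ≤ δ₀ →
      (∀ i, Rad (fun z => δ * rr (ps B) (B i) z)) → ∀ y : E n, ‖y‖ ≤ η₀ → 0 < ps B (A y) →
      LD n (Fs K B F (fun i z => δ * rr (ps B) (B i) z)) (A y) := by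
  obtain ⟨CK, hCK0, hCK⟩ := mol_near K
  have hKC : KC K CK := ⟨hCK0, hCK⟩
  have q1 := fun i => trans_quad (hB i) hA
  have q2 := fun i => trans_quad hA (hB i)
  choose δa Ca hδa hCa qa using q1
  choose δb Cb hδb hCb qb using q2
  obtain ⟨δt, hδt, hδt'⟩ := exists_lower' δa hδa
  obtain ⟨Λa, hΛa0, hΛa⟩ := exists_upper' Ca hCa
  obtain ⟨Λb, hΛb0, hΛb⟩ := exists_upper' Cb hCb
  obtain ⟨Λ, hΛd⟩ : ∃ Λ, Λ = 1 + Λa + Λb := ⟨_, rfl⟩
  have hΛ : 1 ≤ Λ := by rw [hΛd]; linarith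
  have hlip := fun i => rr_lip (ps_smooth B hB) (hB i)
  choose Λi hΛi0 hΛi using hlip
  obtain ⟨Λr, hΛr0, hΛr⟩ := exists_upper' Λi hΛi0
  have hCb' : ∀ i : Fin N, ∃ C : ℝ, 0 ≤ C ∧ ∀ y : E n, ‖y‖ ≤ 1 →
      ‖fderiv ℝ (fun y => wt B i (A y)) y‖ ≤ C := by
    intro i
    have hcont : ContinuousOn (fderiv ℝ (fun y => wt B i (A y))) (closedBall (0 : E n) 1) := by
      intro y hy
      rw [mem_closedBall_zero_iff] at hy
      have h4 := smooth_in_box hA (by linarith : ‖y‖ ≤ 2) (wt_smooth B hB i _)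
      exact (h4.fderiv_right (m := 0) (by simp)).continuousAt.continuousWithinAt
    obtain ⟨C, hC⟩ := (isCompact_closedBall (0 : E n) 1).exists_bound_of_continuousOn hcont
    exact ⟨|C|, abs_nonneg _, fun y hy => (hC y (by simpa using hy)).trans (le_abs_self _)⟩
  choose Cp hCp0 hCp using hCb'
  obtain ⟨Cχ, hCχ0, hCχ⟩ := exists_upper' Cp hCp0
  -- the tolerance
  obtain ⟨t, ⟨t1, t2, t3⟩, ht⟩ := (((small (CK * (2 * Λ + 1) * Λ) (D := 1 / 4)
    (by norm_num)).and ((small (N * (Cχ * (4 * Λ + 3))) (D := 1 / 4) (by norm_num)).and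
      (small 1 (D := 1 / 20) (by norm_num)))).and self_mem_nhdsWithin).exists
  have ht0 : 0 < t := ht
  rw [mul_one] at t3
  obtain ⟨δe, hδe, hex⟩ := hAA t ht0
  obtain ⟨δ1, hδ1, hex1⟩ := hAA (1 / 20) (by norm_num)
  have hGc : ContinuousOn (fun p => F (A p)) (closedBall 0 2) := contOn hA hF
  have hGi : InjOn (fun p => F (A p)) (closedBall 0 2) := fun p hp q hq h =>
    hA.inj hp hq (hFi h)
  obtain ⟨δ2, hδ2d⟩ : ∃ δ2, δ2 = min δ1 1 := ⟨_, rfl⟩
  have hδ20 : 0 < δ2 := by rw [hδ2d]; exact lt_min hδ1 one_pos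
  have hδ21 : δ2 ≤ 1 := by rw [hδ2d]; exact min_le_right _ _
  have hδ2' : δ2 ≤ δ1 := by rw [hδ2d]; exact min_le_left _ _
  obtain ⟨ρ, hρ0, hρδ, hρ⟩ := small_cond hGc hGi hδ20 hδ21 (fun y r hy hr hrδ =>
    hex1 y r (hy.trans hδ2') hr (hrδ.trans hδ2')) ht0
  -- the scale
  obtain ⟨δ₀, ⟨d1, d2, d3, d4, d5⟩, hδ₀⟩ := (((small (2 * Λ * N) (D := δe) hδe).and
    ((small (2 * Λ * N) (D := ρ) hρ0).and ((small (N : ℝ) (D := δt) hδt).and
    ((small (N : ℝ) (D := 1) one_pos).and (small Λr (D := 1) one_pos))))).and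
      self_mem_nhdsWithin).exists
  have hδ₀0 : 0 < δ₀ := hδ₀
  refine ⟨δ₀, min δe δ2, hδ₀0, lt_min hδe hδ20, fun δ hδ hδδ hRad y hy hx => ?_⟩
  have hye := hy.trans (min_le_left _ _)
  have hy2 := hy.trans (min_le_right _ _)
  have hy1 : ‖y‖ ≤ 1 := by linarith
  have hpN := ps_le B (A y)
  obtain ⟨C, hCd⟩ : ∃ C, C = δ * ps B (A y) := ⟨_, rfl⟩
  have hC : 0 < C := by rw [hCd]; exact mul_pos hδ hx
  have hCN : C ≤ δ₀ * N := by
    rw [hCd]
    exact mul_le_mul hδδ hpN hx.le hδ₀0.le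
  have hR : 2 * Λ * C ≤ δ₀ * (2 * Λ * N) := by nlinarith
  have hR0 : 0 < 2 * Λ * C := by positivity
  obtain ⟨a, L, hap⟩ := hex y (2 * Λ * C) hye hR0 (hR.trans d1.le)
  have hap' : Apx (fun p => F (A p)) (1 / 20) y (2 * Λ * C) a L := hap.mono t3.le hR0.le
  have hRρ : 2 * Λ * C ≤ ρ := hR.trans d2.le
  refine point_LD K hKC hB hA hF hδ hRad ?_ hy1 hx (L := L) (a := a) (ε := t) (η := t) (Λ := Λ)
    (Cχ := Cχ) hΛ ?_ ht0.le ht0.le ?_ ?_ ?_ ?_ ?_ ?_ ?_ ?_
  · intro i z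
    apply norm_fderiv_le_of_lip' ℝ zero_le_one
    apply Eventually.of_forall
    intro z'
    rw [Real.norm_eq_abs, ← mul_sub, abs_mul, abs_of_pos hδ, one_mul]
    have h4 := hΛi i z' z
    calc δ * |rr (ps B) (B i) z' - rr (ps B) (B i) z| ≤ δ₀ * (Λr * ‖z' - z‖) := by
          apply mul_le_mul hδδ _ (abs_nonneg _) hδ₀0.le
          exact h4.trans (mul_le_mul_of_nonneg_right (hΛr i) (norm_nonneg _))
      _ = δ₀ * Λr * ‖z' - z‖ := by ring
      _ ≤ 1 * ‖z' - z‖ := mul_le_mul_of_nonneg_right d5.le (norm_nonneg _)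
      _ = ‖z' - z‖ := one_mul _
  · rw [← hCd]
    linarith
  · rw [← hCd]
    exact hap
  · rw [← hCd]
    intro u w hu hw
    exact hρ y (2 * Λ * C) a L hy2 hR0 hRρ hap' u w hu hw
  · intro u hu
    apply hap.pos hR0 hu
    intro h
    have hm1 := unit_mem hy2 hu hR0.le (hRρ.trans hρδ) hδ21
    have hm2 : y ∈ closedBall (0 : E n) 2 := by rw [mem_closedBall_zero_iff]; linarith
    have h2 := hGi hm1 hm2 h
    have h3 : (2 * Λ * C) • u = 0 := by
      have := congrArg (fun x => x - y) h2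
      simpa using this
    have h4 : ‖(2 * Λ * C) • u‖ = 2 * Λ * C := by
      rw [norm_smul, hu, mul_one, Real.norm_of_nonneg hR0.le]
    rw [h3, norm_zero] at h4
    linarith
  · intro i z hz hzy
    obtain ⟨b1, b2⟩ := qa i z y hz hy1 hzy
    refine ⟨b1.trans (by rw [hΛd]; linarith [hΛa i]), fun v hv => ?_⟩
    rw [← hCd] at hv
    obtain ⟨-, b3, b4⟩ := b2 v (by
      have := hδt' i
      linarith)
    refine ⟨b3, b4.trans ?_⟩
    apply mul_le_mul_of_nonneg_right _ (by positivity)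
    rw [hΛd]
    linarith [hΛa i]
  · intro i z hz hzy
    exact (qb i y z hy1 hz hzy.symm).1.trans (by rw [hΛd]; linarith [hΛb i])
  · intro i
    exact (hCp i y hy1).trans (hCχ i)
  · have : CK * (2 * t * Λ + t) * Λ = t * (CK * (2 * Λ + 1) * Λ) := by ring
    rw [this]
    exact t1.le
  · have : N * (Cχ * (4 * t * Λ + 3 * t)) = t * (N * (Cχ * (4 * Λ + 3))) := by ring
    rw [this]
    exact t2.le

end Pool.Agent.U498.AA
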