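import Pool.Agent.U211.BL.MI
import Pool.Agent.U498.AA.Apx

/-!
# Quadratic estimate for the transition maps between boxes
-/

set_option autoImplicit false

open Set Filter Topology Metric Function MeasureTheory
open scoped Manifold ContDiff

noncomputable section

namespace Pool.Agent.U498.AA

open Pool.Agent.Y522 Pool.Agent.U211.BL

variable {n : ℕ} {X : Type} [TopologicalSpace X] [ChartedSpace (E n) X]

/-- local form -/
theorem quad_local {T : E n → E n} {y₀ : E n} (h : ContDiffAt ℝ ∞ T y₀) :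
    ∃ r C : ℝ, 0 < r ∧ 0 ≤ C ∧ ∀ y ∈ ball y₀ r, ‖fderiv ℝ T y‖ ≤ C ∧
      ∀ v : E n, ‖v‖ ≤ r → ‖T (y + v) - T y - fderiv ℝ T y v‖ ≤ C * ‖v‖ ^ 2 := by
  have h1 : ContDiffAt ℝ 1 (fderiv ℝ T) y₀ := (h.fderiv_right (m := ∞) (by simp)).of_le (by simp)
  obtain ⟨k, s, hs, hk⟩ := h1.exists_lipschitzOnWith
  have h2 : ∀ᶠ y in 𝓝 y₀, DifferentiableAt ℝ T y := by
    have hne : (1 : WithTop ℕ∞) ≠ ∞ := by simp
    filter_upwards [(h.of_le (m := 1) (by simp)).eventually hne] with y hy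
    exact hy.differentiableAt one_ne_zero
  have h3 : ∀ᶠ y in 𝓝 y₀, ‖fderiv ℝ T y‖ < ‖fderiv ℝ T y₀‖ + 1 :=
    h1.continuousAt.norm.eventually_lt_const (by linarith)
  obtain ⟨r, hr, hb⟩ := Metric.eventually_nhds_iff_ball.1
    ((show ∀ᶠ y in 𝓝 y₀, y ∈ s from hs).and (h2.and h3))
  refine ⟨r / 2, max k (‖fderiv ℝ T y₀‖ + 1), by positivity,
    le_trans k.coe_nonneg (le_max_left _ _), ?_⟩
  intro y hy
  rw [mem_ball, dist_eq_norm] at hy
  refine ⟨?_, ?_⟩
  · have h4 := (hb y (by rw [mem_ball, dist_eq_norm]; linarith)).2.2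
    exact h4.le.trans (le_max_right _ _)
  · intro v hv
    have hin : ∀ x ∈ closedBall y ‖v‖, x ∈ ball y₀ r := by
      intro x hx
      rw [mem_closedBall, dist_eq_norm] at hx
      rw [mem_ball, dist_eq_norm]
      have := norm_add_le (x - y) (y - y₀)
      rw [sub_add_sub_cancel] at this
      linarith
    have h4 : ∀ x ∈ closedBall y ‖v‖, HasFDerivWithinAt (fun x => T x - fderiv ℝ T y x)
        (fderiv ℝ T x - fderiv ℝ T y) (closedBall y ‖v‖) x := by
      intro x hx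
      exact ((hb x (hin x hx)).2.1.hasFDerivAt.sub (fderiv ℝ T y).hasFDerivAt).hasFDerivWithinAt
    have h5 : ∀ x ∈ closedBall y ‖v‖, ‖fderiv ℝ T x - fderiv ℝ T y‖ ≤ k * ‖v‖ := by
      intro x hx
      have h6 := hk.dist_le_mul x (hb x (hin x hx)).1 y
        (hb y (hin y (mem_closedBall_self (norm_nonneg _)))).1
      rw [dist_eq_norm] at h6
      rw [mem_closedBall] at hx
      exact h6.trans (mul_le_mul_of_nonneg_left hx k.coe_nonneg)
    have h6 := (convex_closedBall y ‖v‖).norm_image_sub_le_of_norm_hasFDerivWithin_le h4 h5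
      (mem_closedBall_self (norm_nonneg _)) (y := y + v)
      (by rw [mem_closedBall, dist_eq_norm, add_sub_cancel_left])
    rw [add_sub_cancel_left] at h6
    have h7 : T (y + v) - fderiv ℝ T y (y + v) - (T y - fderiv ℝ T y y) =
        T (y + v) - T y - fderiv ℝ T y v := by
      rw [map_add]
      abel
    rw [h7] at h6
    refine h6.trans ?_
    have h8 : (k : ℝ) * ‖v‖ * ‖v‖ = k * ‖v‖ ^ 2 := by ring
    rw [h8]
    exact mul_le_mul_of_nonneg_right (le_max_left _ _) (by positivity)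

/-- **quadratic estimate for the transition maps** -/
theorem trans_quad [T2Space X] {A B : E n → X} (hA : Box A) (hB : Box B) :
    ∃ δ C : ℝ, 0 < δ ∧ 0 ≤ C ∧ ∀ y z : E n, ‖y‖ ≤ 1 → ‖z‖ ≤ 1 → A y = B z →
      ‖fderiv ℝ (tr A B) y‖ ≤ C ∧ ∀ v : E n, ‖v‖ ≤ δ →
      ‖tr A B (y + v)‖ ≤ 2 ∧ B (tr A B (y + v)) = A (y + v) ∧
      ‖tr A B (y + v) - z - fderiv ℝ (tr A B) y v‖ ≤ C * ‖v‖ ^ 2 := by
  obtain ⟨δ₁, hδ₁, h₁⟩ := trans_unif hA hB (ε := 1) one_pos
  have hcl : IsClosed (B '' closedBall 0 1) := (box_isCompact hB (by norm_num)).isClosed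
  have hQ : IsCompact (closedBall (0 : E n) 1 ∩ A ⁻¹' (B '' closedBall 0 1)) := by
    have h1 : IsClosed (closedBall (0 : E n) 1 ∩ A ⁻¹' (B '' closedBall 0 1)) :=
      ((box_contOn hA).mono (closedBall_subset_closedBall (by norm_num))).preimage_isClosed_of_isClosed
        isClosed_closedBall hcl
    exact (isCompact_closedBall (0 : E n) 1).of_isClosed_subset h1 inter_subset_left
  suffices H : ∃ δ C : ℝ, 0 < δ ∧ 0 ≤ C ∧ ∀ y ∈ closedBall (0 : E n) 1 ∩
      A ⁻¹' (B '' closedBall 0 1), ‖fderiv ℝ (tr A B) y‖ ≤ C ∧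
      ∀ v : E n, ‖v‖ ≤ δ → ‖tr A B (y + v) - tr A B y - fderiv ℝ (tr A B) y v‖ ≤ C * ‖v‖ ^ 2 by
    obtain ⟨δ, C, hδ, hC, h⟩ := H
    refine ⟨min δ δ₁, C, lt_min hδ hδ₁, hC, fun y z hy hz hyz => ?_⟩
    obtain ⟨h1, h3⟩ := h y ⟨by simpa using hy, z, by simpa using hz, hyz.symm⟩
    have h2 : tr A B y = z := tr_of hB (by linarith) hyz
    refine ⟨h1, fun v hv => ?_⟩
    obtain ⟨a1, a2, -⟩ := h₁ y z hy hz hyz v (hv.trans (min_le_right _ _))
    have h4 := h3 v (hv.trans (min_le_left _ _))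
    rw [h2] at h4
    exact ⟨a1, a2, h4⟩
  refine hQ.induction_on (p := fun S => ∃ δ C : ℝ, 0 < δ ∧ 0 ≤ C ∧ ∀ y ∈ S,
      ‖fderiv ℝ (tr A B) y‖ ≤ C ∧ ∀ v : E n, ‖v‖ ≤ δ →
      ‖tr A B (y + v) - tr A B y - fderiv ℝ (tr A B) y v‖ ≤ C * ‖v‖ ^ 2) ?_ ?_ ?_ ?_
  · exact ⟨1, 0, one_pos, le_rfl, fun y hy => hy.elim⟩
  · rintro S T hST ⟨δ, C, hδ, hC, h⟩
    exact ⟨δ, C, hδ, hC, fun y hy => h y (hST hy)⟩
  · rintro S T ⟨δ, C, hδ, hC, h⟩ ⟨δ', C', hδ', hC', h'⟩
    refine ⟨min δ δ', max C C', lt_min hδ hδ', le_trans hC (le_max_left _ _), fun y hy => ?_⟩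
    rcases hy with hy | hy
    · refine ⟨(h y hy).1.trans (le_max_left _ _), fun v hv => ?_⟩
      refine ((h y hy).2 v (hv.trans (min_le_left _ _))).trans ?_
      exact mul_le_mul_of_nonneg_right (le_max_left _ _) (by positivity)
    · refine ⟨(h' y hy).1.trans (le_max_right _ _), fun v hv => ?_⟩
      refine ((h' y hy).2 v (hv.trans (min_le_right _ _))).trans ?_
      exact mul_le_mul_of_nonneg_right (le_max_right _ _) (by positivity)
  · rintro y₀ ⟨hy₀, z₀, hz₀, hyz₀⟩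
    rw [mem_closedBall_zero_iff] at hy₀ hz₀
    have hld : LD n (tr A B) y₀ := tr_ld hA hB (by linarith) (by linarith) hyz₀.symm
    obtain ⟨r, C, hr, hC, h⟩ := quad_local hld.contDiffAt
    refine ⟨ball y₀ r, mem_nhdsWithin_of_mem_nhds (ball_mem_nhds _ hr), r, C, hr, hC, ?_⟩
    intro y hy
    exact h y hy

/-- the transition maps are inverse to one another -/
theorem tr_inv {A B : E n → X} (hA : Box A) (hB : Box B) {y z : E n} (hy : ‖y‖ ≤ 1)
    (hz : ‖z‖ ≤ 1) (h : A y = B z) (u : E n) :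
    fderiv ℝ (tr B A) z (fderiv ℝ (tr A B) y u) = u := by
  have h1 : HasFDerivAt (tr A B) (fderiv ℝ (tr A B) y) y :=
    ((tr_ld hA hB (by linarith) (by linarith) h).contDiffAt.differentiableAt
      (by simp)).hasFDerivAt
  have h2 : HasFDerivAt (tr B A) (fderiv ℝ (tr B A) z) (tr A B y) := by
    rw [tr_of hB (by linarith) h]
    exact ((tr_ld hB hA (by linarith) (by linarith) h.symm).contDiffAt.differentiableAt
      (by simp)).hasFDerivAt
  have h3 := h2.comp y h1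
  have h4 : tr B A ∘ tr A B =ᶠ[𝓝 y] id := by
    have a1 : ∀ᶠ y' in 𝓝 y, ‖y'‖ < 2 := continuous_norm.continuousAt.eventually_lt_const
      (by linarith)
    have a2 : ∀ᶠ y' in 𝓝 y, A y' ∈ B '' ball 0 2 := by
      apply (hA.ld y (by simpa using by linarith)).continuousAt
      apply (box_isOpen hB isOpen_ball ball_subset_closedBall).mem_nhds
      exact ⟨z, by rw [mem_ball_zero_iff]; linarith, h.symm⟩
    filter_upwards [a1, a2] with y' hy' hz'
    obtain ⟨z', hz'1, hz'2⟩ := hz'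
    rw [mem_ball_zero_iff] at hz'1
    rw [comp_apply, tr_of hB hz'1.le hz'2.symm, tr_of hA hy'.le hz'2]
    rfl
  have h5 := (h3.congr_of_eventuallyEq h4.symm).unique (hasFDerivAt_id y)
  have h6 := congrArg (fun L : E n →L[ℝ] E n => L u) h5
  simpa using h6

end Pool.Agent.U498.AA
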