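import Pool.Agent.U211.BL.Glob
import Pool.Agent.U498.AA.Der
import Pool.Agent.U498.AA.Quad

/-!
# The derivative of one mollified map at a point where the map is close to an affine map
-/

set_option autoImplicit false

open Set Filter Topology Metric Function MeasureTheory
open scoped Manifold ContDiff

noncomputable section

namespace Pool.Agent.U498.AA

open Pool.Agent.Y522 Pool.Agent.U211.BL

variable {n : ℕ} {X : Type} [TopologicalSpace X] [ChartedSpace (E n) X] [T2Space X]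

variable {r₀ : ℝ} (K : Ker n r₀)

omit [TopologicalSpace X] [ChartedSpace (E n) X] [T2Space X] in
/-- the mollification is close to the function -/
theorem mol_close' {G : E n → E n} {c : E n → ℝ} (hG : ContinuousOn G (closedBall 0 2))
    (hc : Rad c) {z : E n} (hz : ‖z‖ ≤ 3 / 2) {M : ℝ} (h : ∀ p, ‖p - z‖ ≤ c z → ‖G p - G z‖ ≤ M) :
    ‖Mol K G c z - G z‖ ≤ M := by
  have hcont : ContinuousOn (fun s => G (z + c z • s)) (closedBall (0 : E n) 1) := by
    apply hG.comp (by fun_prop)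
    intro s hs
    exact pt_mem (hc.nonneg z) (hc.le z) hz (by simpa using hs)
  have h1 : ∫ s, K.k s • G z = G z := by rw [integral_smul_const, K.int, one_smul]
  have h2 : Mol K G c z - G z = ∫ s, (K.k s • G (z + c z • s) - K.k s • G z) := by
    rw [integral_sub (k_smul_integrable K hcont) (K.integrable.smul_const _), h1]
    rfl
  have hle : ∀ s : E n, ‖K.k s • G (z + c z • s) - K.k s • G z‖ ≤ K.k s * M := by
    intro s
    rw [← smul_sub, norm_smul, Real.norm_of_nonneg (K.nonneg s)]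
    by_cases hs : K.k s = 0
    · rw [hs, zero_mul, zero_mul]
    apply mul_le_mul_of_nonneg_left _ (K.nonneg s)
    apply h
    rw [add_sub_cancel_left, norm_smul, Real.norm_of_nonneg (hc.nonneg z)]
    have := (K.lt hs).le
    have h3 := hc.nonneg z
    nlinarith
  rw [h2]
  calc _ ≤ ∫ s, K.k s * M :=
        norm_integral_le_of_norm_le (K.integrable.mul_const _) (Eventually.of_forall hle)
    _ = M := by rw [integral_mul_const, K.int, one_mul]

/-- `C` is a constant for the kernel, as in `mol_near` -/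
def KC (CK : ℝ) : Prop := 0 ≤ CK ∧ ∀ (G : E n → E n) (b : E n) (L : E n →L[ℝ] E n) (c : E n → ℝ),
    ContinuousOn G (closedBall 0 2) → Rad c →
    ∀ (z : E n) (e : ℝ), 0 < c z → ‖fderiv ℝ c z‖ ≤ 1 → 0 ≤ e →
    (∀ p, ‖p - z‖ ≤ c z → ‖G p - (b + L p)‖ ≤ e) → ∀ w,
    ‖fderiv ℝ (Mol K G c) z w - L w‖ ≤ CK * (e / c z) * ‖w‖

omit [TopologicalSpace X] [ChartedSpace (E n) X] [T2Space X] in
theorem small_apply {L : E n →L[ℝ] E n} {R η : ℝ} {u : E n}
    (hcond : ∀ w : E n, ‖w‖ = 1 → ‖L w‖ * R ≤ η * ‖L u‖) (x : E n) :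
    ‖L x‖ * R ≤ η * ‖L u‖ * ‖x‖ := by
  by_cases hx : x = 0
  · subst hx
    simp
  · have hn : ‖x‖ ≠ 0 := norm_ne_zero_iff.2 hx
    have h1 := hcond (‖x‖⁻¹ • x) (by rw [norm_smul, norm_inv, norm_norm, inv_mul_cancel₀ hn])
    rw [map_smul, norm_smul, norm_inv, norm_norm] at h1
    have h2 := mul_le_mul_of_nonneg_right h1 (norm_nonneg x)
    have h3 : ‖x‖⁻¹ * ‖L x‖ * R * ‖x‖ = ‖L x‖ * R := by field_simp
    rw [h3] at h2
    exact h2

omit [TopologicalSpace X] [ChartedSpace (E n) X] [T2Space X] in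
/-- the map in another box is close to an affine map -/
theorem near_affine {A B : E n → X} {F : X → E n} {y z a u : E n}
    {L S : E n →L[ℝ] E n} {ε η Λ C : ℝ} (hΛ : 1 ≤ Λ) (hC : 0 < C) (hC1 : C ≤ 1) (hη : 0 ≤ η)
    (hu : ‖u‖ = 1)
    (hap : Apx (fun p => F (A p)) ε y (2 * Λ * C) a L)
    (hcond : ∀ w : E n, ‖w‖ = 1 → ‖L w‖ * (2 * Λ * C) ≤ η * ‖L u‖)
    (hS : ‖S‖ ≤ Λ)
    (htr : ∀ v : E n, ‖v‖ ≤ C → A (tr B A (z + v)) = B (z + v) ∧
      ‖tr B A (z + v) - y - S v‖ ≤ Λ * ‖v‖ ^ 2) {v : E n} (hv : ‖v‖ ≤ C) :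
    ‖F (B (z + v)) - (a + L y + L (S v))‖ ≤ C * (2 * ε * Λ + η) * ‖L u‖ ∧
      ‖L (S v)‖ ≤ η * ‖L u‖ := by
  obtain ⟨h1, h2⟩ := htr v hv
  have hSv : ‖S v‖ ≤ Λ * ‖v‖ := (S.le_opNorm v).trans (mul_le_mul_of_nonneg_right hS (norm_nonneg _))
  have hv0 := norm_nonneg v
  have hv2 : ‖v‖ ^ 2 ≤ C * ‖v‖ := by nlinarith
  have hLu := norm_nonneg (L u)
  have hR : 0 < 2 * Λ * C := by positivity
  constructor
  · rw [← h1]
    have h3 : ‖tr B A (z + v) - y‖ ≤ 2 * Λ * C := by
      have h4 : tr B A (z + v) - y = (tr B A (z + v) - y - S v) + S v := by abel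
      rw [h4]
      refine (norm_add_le _ _).trans ?_
      have h5 : Λ * ‖v‖ ^ 2 ≤ Λ * C := by
        apply mul_le_mul_of_nonneg_left _ (by linarith)
        nlinarith
      have h6 : Λ * ‖v‖ ≤ Λ * C := mul_le_mul_of_nonneg_left hv (by linarith)
      linarith
    have h4 := hap _ h3 u hu
    obtain ⟨ξ, hξ⟩ : ∃ ξ, ξ = tr B A (z + v) - y - S v := ⟨_, rfl⟩
    have h5 : tr B A (z + v) = y + S v + ξ := by rw [hξ]; abel
    rw [← hξ] at h2
    have h6 := small_apply hcond ξ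
    have h7 : ‖L ξ‖ ≤ C * η * ‖L u‖ := by
      have h8 : ‖L ξ‖ * (2 * Λ * C) ≤ η * ‖L u‖ * (Λ * C ^ 2) := by
        refine h6.trans ?_
        apply mul_le_mul_of_nonneg_left _ (by positivity)
        refine h2.trans ?_
        apply mul_le_mul_of_nonneg_left _ (by linarith)
        nlinarith
      have h9 : η * ‖L u‖ * (Λ * C ^ 2) ≤ (C * η * ‖L u‖) * (2 * Λ * C) := by
        have : 0 ≤ η * ‖L u‖ * (Λ * C ^ 2) := by positivity
        nlinarith
      exact le_of_mul_le_mul_right (h8.trans h9) hR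
    have h8 : F (A (tr B A (z + v))) - (a + L y + L (S v)) =
        (F (A (tr B A (z + v))) - (a + L (tr B A (z + v)))) + L ξ := by
      rw [show L (tr B A (z + v)) = L y + L (S v) + L ξ by rw [h5, map_add, map_add]]
      abel
    rw [h8]
    refine (norm_add_le _ _).trans ?_
    have h9 : ε * (2 * Λ * C * ‖L u‖) + C * η * ‖L u‖ = C * (2 * ε * Λ + η) * ‖L u‖ := by ring
    linarith
  · have h6 := small_apply hcond (S v)
    have h8 : ‖L (S v)‖ * (2 * Λ * C) ≤ (η * ‖L u‖) * (2 * Λ * C) := by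
      refine h6.trans ?_
      apply mul_le_mul_of_nonneg_left _ (by positivity)
      have h6 : Λ * ‖v‖ ≤ Λ * C := mul_le_mul_of_nonneg_left hv (by linarith)
      have : 0 ≤ Λ * C := by positivity
      linarith
    exact le_of_mul_le_mul_right h8 hR

theorem termA {CK : ℝ} (hCK : KC (n := n) K CK) {N : ℕ} {B : Fin N → E n → X} {A : E n → X}
    (hB : ∀ i, Box (B i)) (hA : Box A) {F : X → E n} (hF : Continuous F) {i : Fin N}
    {c : E n → ℝ} (hc : Rad c) (hc1 : ∀ z, ‖fderiv ℝ c z‖ ≤ 1) {y a : E n} (hy : ‖y‖ ≤ 1)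
    {L : E n →L[ℝ] E n} {ε η Λ C Cχ : ℝ} (hΛ : 1 ≤ Λ) (hC : 0 < C) (hC1 : C ≤ 1) (hη : 0 ≤ η)
    (hε : 0 ≤ ε)
    (hcz : ∀ z, ‖z‖ ≤ 3 / 4 → B i z = A y → c z = C)
    (hap : Apx (fun p => F (A p)) ε y (2 * Λ * C) a L)
    (hcond : ∀ u w : E n, ‖u‖ = 1 → ‖w‖ = 1 → ‖L w‖ * (2 * Λ * C) ≤ η * ‖L u‖)
    (htr : ∀ z, ‖z‖ ≤ 1 → B i z = A y → ‖fderiv ℝ (tr (B i) A) z‖ ≤ Λ ∧ ∀ v : E n, ‖v‖ ≤ C →
      A (tr (B i) A (z + v)) = B i (z + v) ∧
      ‖tr (B i) A (z + v) - y - fderiv ℝ (tr (B i) A) z v‖ ≤ Λ * ‖v‖ ^ 2)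
    (htr' : ∀ z, ‖z‖ ≤ 1 → B i z = A y → ‖fderiv ℝ (tr A (B i)) y‖ ≤ Λ)
    (hCχ : ‖fderiv ℝ (fun y => wt B i (A y)) y‖ ≤ Cχ) :
    ∃ Li : E n →L[ℝ] E n, HasFDerivAt (fun y => wt B i (A y) • Mi K (B i) F c (A y))
      (wt B i (A y) • Li + (fderiv ℝ (fun y => wt B i (A y)) y).smulRight
        (Mi K (B i) F c (A y))) y ∧
      (∀ u : E n, ‖u‖ = 1 → wt B i (A y) * ‖Li u - L u‖ ≤
        wt B i (A y) * (CK * (2 * ε * Λ + η) * Λ * ‖L u‖)) ∧
      (∀ u : E n, ‖u‖ = 1 → |fderiv ℝ (fun y => wt B i (A y)) y u| *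
        ‖Mi K (B i) F c (A y) - F (A y)‖ ≤ Cχ * ((4 * ε * Λ + 3 * η) * ‖L u‖)) := by
  have hCχ0 : 0 ≤ Cχ := (norm_nonneg _).trans hCχ
  have hw : HasFDerivAt (fun y => wt B i (A y)) (fderiv ℝ (fun y => wt B i (A y)) y) y :=
    ((smooth_in_box hA (by linarith) (wt_smooth B hB i _)).differentiableAt
      (by simp)).hasFDerivAt
  by_cases hm : A y ∈ B i '' closedBall 0 (3 / 4)
  · obtain ⟨z, hz, hzy⟩ := hm
    rw [mem_closedBall_zero_iff] at hz
    have hczz := hcz z hz hzy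
    have hcpos : 0 < c z := by rw [hczz]; exact hC
    obtain ⟨t1, t2⟩ := htr z (by linarith) hzy
    have t3 := htr' z (by linarith) hzy
    have hGc : ContinuousOn (fun z => F (B i z)) (closedBall 0 2) := contOn (hB i) hF
    refine ⟨(fderiv ℝ (Mol K (fun z => F (B i z)) c) z).comp (fderiv ℝ (tr A (B i)) y), ?_, ?_, ?_⟩
    · exact hw.smul (Mi_deriv_pos K hA (hB i) hF hc (by linarith) hzy.symm hcpos)
    · intro u hu
      apply mul_le_mul_of_nonneg_left _ (wt_nonneg B i _)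
      obtain ⟨S, hS⟩ : ∃ S, S = fderiv ℝ (tr (B i) A) z := ⟨_, rfl⟩
      rw [← hS] at t1 t2
      have key : ∀ p, ‖p - z‖ ≤ c z → ‖F (B i p) - ((a + L y - L (S z)) + (L.comp S) p)‖ ≤
          C * (2 * ε * Λ + η) * ‖L u‖ := by
        intro p hp
        rw [hczz] at hp
        have h1 := (near_affine (A := A) (B := B i) (F := F) (y := y) (z := z) (a := a) (u := u)
          (L := L) (S := S) hΛ hC hC1 hη hu hap (fun w hw => hcond u w hu hw) t1 t2 hp).1
        rw [add_sub_cancel] at h1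
        have h2 : (a + L y - L (S z)) + (L.comp S) p = a + L y + L (S (p - z)) := by
          rw [ContinuousLinearMap.comp_apply, map_sub, map_sub]
          abel
        rw [h2]
        exact h1
      have h3 := hCK.2 (fun z => F (B i z)) (a + L y - L (S z)) (L.comp S) c hGc hc z
        (C * (2 * ε * Λ + η) * ‖L u‖) hcpos (hc1 z) (by positivity) key
        (fderiv ℝ (tr A (B i)) y u)
      have h4 : (L.comp S) (fderiv ℝ (tr A (B i)) y u) = L u := by
        rw [ContinuousLinearMap.comp_apply, hS,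
          tr_inv hA (hB i) hy (by linarith) hzy.symm u]
      rw [h4, hczz] at h3
      rw [ContinuousLinearMap.comp_apply]
      refine h3.trans ?_
      have h5 : C * (2 * ε * Λ + η) * ‖L u‖ / C = (2 * ε * Λ + η) * ‖L u‖ := by
        field_simp
      rw [h5]
      have h6 : ‖fderiv ℝ (tr A (B i)) y u‖ ≤ Λ := by
        have := (fderiv ℝ (tr A (B i)) y).le_opNorm u
        rw [hu, mul_one] at this
        exact this.trans t3
      have h7 := hCK.1
      calc CK * ((2 * ε * Λ + η) * ‖L u‖) * ‖fderiv ℝ (tr A (B i)) y u‖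
          ≤ CK * ((2 * ε * Λ + η) * ‖L u‖) * Λ :=
            mul_le_mul_of_nonneg_left h6 (by positivity)
        _ = CK * (2 * ε * Λ + η) * Λ * ‖L u‖ := by ring
    · intro u hu
      apply mul_le_mul _ _ (norm_nonneg _) hCχ0
      · have h1 := (fderiv ℝ (fun y => wt B i (A y)) y).le_opNorm u
        rw [hu, mul_one, Real.norm_eq_abs] at h1
        exact h1.trans hCχ
      · rw [← hzy, Mi_of K (hB i) hc.zero (by linarith)]
        apply mol_close' K hGc hc (by linarith)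
        intro p hp
        rw [hczz] at hp
        obtain ⟨h1, h1'⟩ := near_affine (A := A) (B := B i) (F := F) (y := y) (z := z) (a := a)
          (u := u) (L := L) hΛ hC hC1 hη hu hap (fun w hw => hcond u w hu hw) t1 t2 hp
        obtain ⟨h2, -⟩ := near_affine (A := A) (B := B i) (F := F) (y := y) (z := z) (a := a)
          (u := u) (L := L) hΛ hC hC1 hη hu hap (fun w hw => hcond u w hu hw) t1 t2
          (v := 0) (by rw [norm_zero]; exact hC.le)
        rw [add_sub_cancel] at h1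
        rw [add_zero, map_zero, map_zero, add_zero] at h2
        have h3 : F (B i p) - F (B i z) =
            (F (B i p) - (a + L y + L (fderiv ℝ (tr (B i) A) z (p - z)))) -
            (F (B i z) - (a + L y)) + L (fderiv ℝ (tr (B i) A) z (p - z)) := by abel
        show ‖F (B i p) - F (B i z)‖ ≤ _
        rw [h3]
        refine (norm_add_le _ _).trans ?_
        have h4 := norm_sub_le (F (B i p) - (a + L y + L (fderiv ℝ (tr (B i) A) z (p - z))))
          (F (B i z) - (a + L y))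
        have h5 : C * (2 * ε * Λ + η) * ‖L u‖ ≤ 1 * ((2 * ε * Λ + η) * ‖L u‖) := by
          rw [mul_assoc]
          exact mul_le_mul_of_nonneg_right hC1 (by positivity)
        linarith
  · have hev : ∀ᶠ w in 𝓝 y, wt B i (A w) = 0 := by
      have h1 : ∀ᶠ x in 𝓝 (A y), x ∉ B i '' closedBall 0 (3 / 4) :=
        (box_isCompact (hB i) (by norm_num)).isClosed.isOpen_compl.mem_nhds hm
      filter_upwards [(hA.ld y (by rw [mem_closedBall_zero_iff]; linarith)).continuousAt.eventually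
        h1] with w hw
      exact wt_zero B hB hw
    have h0 : wt B i (A y) = 0 := hev.self_of_nhds
    have hd : fderiv ℝ (fun y => wt B i (A y)) y = 0 := by
      have h2 : (fun y => wt B i (A y)) =ᶠ[𝓝 y] fun _ => (0 : ℝ) := hev
      rw [h2.fderiv_eq]
      simp
    refine ⟨0, ?_, ?_, ?_⟩
    · rw [h0, hd]
      have h3 : (0 : ℝ) • (0 : E n →L[ℝ] E n) + (0 : E n →L[ℝ] ℝ).smulRight
          (Mi K (B i) F c (A y)) = 0 := by
        ext v
        simp
      rw [h3]
      refine (hasFDerivAt_const (0 : E n) y).congr_of_eventuallyEq ?_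
      filter_upwards [hev] with w hw
      rw [hw, zero_smul]
    · intro u _
      rw [h0, zero_mul, zero_mul]
    · intro u _
      rw [hd]
      simp only [_root_.zero_apply, abs_zero, zero_mul]
      positivity

end Pool.Agent.U498.AA
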